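import Mathlib

/-!
Random variables with countably many values: the joint law and the product law.
-/

set_option autoImplicit false

namespace Q292.CDep

open MeasureTheory Set
open scoped ENNReal

/-- the variable `X` has almost surely its values in the countable set `C`, with measurable
fibres -/
structure Disc {Ω α : Type*} [MeasurableSpace Ω] (μ : Measure Ω) (X : Ω → α) (C : Set α) :
    Prop where
  cnt : C.Countable
  ae : ∀ᵐ ω ∂μ, X ω ∈ C
  meas : ∀ a ∈ C, MeasurableSet {ω | X ω = a}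

variable {Ω α β : Type*} [MeasurableSpace Ω] {μ : Measure Ω}

theorem Disc.ae_eq {X : Ω → α} {C : Set α} (h : Disc μ X C) (S : Set α) :
    {ω | X ω ∈ S} =ᵐ[μ] ⋃ a ∈ C ∩ S, {ω | X ω = a} := by
  filter_upwards [h.ae] with ω hω
  apply propext
  show X ω ∈ S ↔ ω ∈ ⋃ a ∈ C ∩ S, {ω | X ω = a}
  rw [mem_iUnion₂]
  constructor
  · intro hS
    exact ⟨X ω, ⟨hω, hS⟩, rfl⟩
  · rintro ⟨a, ha, hX⟩
    have hX' : X ω = a := hX
    rw [hX']
    exact ha.2

theorem Disc.meas_iUnion {X : Ω → α} {C : Set α} (h : Disc μ X C) (S : Set α) :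
    MeasurableSet (⋃ a ∈ C ∩ S, {ω | X ω = a}) :=
  MeasurableSet.biUnion (h.cnt.mono inter_subset_left) (fun a ha => h.meas a ha.1)

theorem Disc.null {X : Ω → α} {C : Set α} (h : Disc μ X C) (S : Set α) :
    NullMeasurableSet {ω | X ω ∈ S} μ :=
  (h.meas_iUnion S).nullMeasurableSet.congr (h.ae_eq S).symm

theorem Disc.sum {X : Ω → α} {C : Set α} (h : Disc μ X C) (S : Set α) :
    μ {ω | X ω ∈ S} = ∑' a : ↥(C ∩ S), μ {ω | X ω = a} := by
  rw [measure_congr (h.ae_eq S), measure_biUnion (h.cnt.mono inter_subset_left)]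
  · intro a _ b _ hab
    rw [Function.onFun, Set.disjoint_left]
    intro ω h1 h2
    exact hab ((show X ω = a from h1).symm.trans (show X ω = b from h2))
  · intro a ha
    exact h.meas a ha.1

theorem Disc.pair {X : Ω → α} {Y : Ω → β} {C : Set α} {D : Set β} (hX : Disc μ X C)
    (hY : Disc μ Y D) : Disc μ (fun ω => (X ω, Y ω)) (C ×ˢ D) := by
  refine ⟨hX.cnt.prod hY.cnt, ?_, ?_⟩
  · filter_upwards [hX.ae, hY.ae] with ω h1 h2
    exact ⟨h1, h2⟩
  · rintro ⟨a, b⟩ ⟨ha, hb⟩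
    have : {ω | (X ω, Y ω) = (a, b)} = {ω | X ω = a} ∩ {ω | Y ω = b} := by
      ext ω
      simp [Prod.ext_iff]
    rw [this]
    exact (hX.meas a ha).inter (hY.meas b hb)

theorem Disc.prod [SFinite μ] {X : Ω → α} {Y : Ω → β} {C : Set α} {D : Set β}
    (hX : Disc μ X C) (hY : Disc μ Y D) :
    Disc (μ.prod μ) (fun p : Ω × Ω => (X p.1, Y p.2)) (C ×ˢ D) := by
  refine ⟨hX.cnt.prod hY.cnt, ?_, ?_⟩
  · have h1 : ∀ᵐ p : Ω × Ω ∂(μ.prod μ), X p.1 ∈ C :=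
      Measure.quasiMeasurePreserving_fst.ae hX.ae
    have h2 : ∀ᵐ p : Ω × Ω ∂(μ.prod μ), Y p.2 ∈ D :=
      Measure.quasiMeasurePreserving_snd.ae hY.ae
    filter_upwards [h1, h2] with ω h1 h2
    exact ⟨h1, h2⟩
  · rintro ⟨a, b⟩ ⟨ha, hb⟩
    have : {p : Ω × Ω | (X p.1, Y p.2) = (a, b)} = {ω | X ω = a} ×ˢ {ω | Y ω = b} := by
      ext p
      simp [Prod.ext_iff]
    rw [this]
    exact (hX.meas a ha).prod (hY.meas b hb)

/-- The product law is at most the joint law outside `D`. -/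
theorem le_joint [IsProbabilityMeasure μ] {X : Ω → α} {Y : Ω → β} {C : Set α} {C' : Set β}
    (hX : Disc μ X C) (hY : Disc μ Y C') (S : Set (α × β))
    (hD : ∀ a ∈ C, ∀ b ∈ C', (a, b) ∈ S →
      μ {ω | X ω = a} * μ {ω | Y ω = b} ≤ μ {ω | X ω = a ∧ Y ω = b}) :
    (μ.prod μ) {p | (X p.1, Y p.2) ∈ S} ≤ μ {ω | (X ω, Y ω) ∈ S} := by
  have hP := hX.prod hY
  have hJ := hX.pair hY
  rw [hP.sum S, hJ.sum S]
  apply ENNReal.tsum_le_tsum
  rintro ⟨⟨a, b⟩, ⟨ha, hb⟩, hS⟩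
  have e1 : {p : Ω × Ω | (X p.1, Y p.2) = (a, b)} = {ω | X ω = a} ×ˢ {ω | Y ω = b} := by
    ext p
    simp [Prod.ext_iff]
  have e2 : {ω | (X ω, Y ω) = (a, b)} = {ω | X ω = a ∧ Y ω = b} := by
    ext ω
    simp [Prod.ext_iff]
  show (μ.prod μ) {p : Ω × Ω | (X p.1, Y p.2) = (a, b)} ≤ μ {ω | (X ω, Y ω) = (a, b)}
  rw [e1, e2, Measure.prod_prod]
  exact hD a ha b hb hS

/-- The product law is at most the joint law outside `D`: then the difference is at most the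
product mass of `D`. -/
theorem prod_le [IsProbabilityMeasure μ] {X : Ω → α} {Y : Ω → β} {C : Set α} {C' : Set β}
    (hX : Disc μ X C) (hY : Disc μ Y C') (D : Set (α × β))
    (hD : ∀ a ∈ C, ∀ b ∈ C', (a, b) ∉ D →
      μ {ω | X ω = a} * μ {ω | Y ω = b} ≤ μ {ω | X ω = a ∧ Y ω = b}) (S : Set (α × β)) :
    (μ.prod μ) {p | (X p.1, Y p.2) ∈ S} ≤
      μ {ω | (X ω, Y ω) ∈ S} + (μ.prod μ) {p | (X p.1, Y p.2) ∈ D} := by
  have h1 : {p : Ω × Ω | (X p.1, Y p.2) ∈ S} ⊆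
      {p | (X p.1, Y p.2) ∈ S \ D} ∪ {p | (X p.1, Y p.2) ∈ D} := by
    intro p hp
    by_cases h : (X p.1, Y p.2) ∈ D
    · exact Or.inr h
    · exact Or.inl ⟨hp, h⟩
  refine (measure_mono h1).trans ((measure_union_le _ _).trans ?_)
  refine add_le_add ?_ le_rfl
  have h2 : μ {ω | (X ω, Y ω) ∈ S \ D} ≤ μ {ω | (X ω, Y ω) ∈ S} :=
    measure_mono (fun ω h => h.1)
  exact (le_joint hX hY (S \ D) (fun a ha b hb hab => hD a ha b hb hab.2)).trans h2

theorem tv_le [IsProbabilityMeasure μ] {X : Ω → α} {Y : Ω → β} {C : Set α} {C' : Set β}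
    (hX : Disc μ X C) (hY : Disc μ Y C') (D : Set (α × β))
    (hD : ∀ a ∈ C, ∀ b ∈ C', (a, b) ∉ D →
      μ {ω | X ω = a} * μ {ω | Y ω = b} ≤ μ {ω | X ω = a ∧ Y ω = b}) (S : Set (α × β)) :
    |μ.real {ω | (X ω, Y ω) ∈ S} - (μ.prod μ).real {p | (X p.1, Y p.2) ∈ S}| ≤
      (μ.prod μ).real {p | (X p.1, Y p.2) ∈ D} := by
  have key : ∀ S : Set (α × β), (μ.prod μ).real {p | (X p.1, Y p.2) ∈ S} ≤
      μ.real {ω | (X ω, Y ω) ∈ S} + (μ.prod μ).real {p | (X p.1, Y p.2) ∈ D} := by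
    intro S
    have h := prod_le hX hY D hD S
    have h' := ENNReal.toReal_mono (by finiteness) h
    rw [ENNReal.toReal_add (by finiteness) (by finiteness)] at h'
    exact h'
  have c1 : μ.real {ω | (X ω, Y ω) ∈ Sᶜ} = 1 - μ.real {ω | (X ω, Y ω) ∈ S} :=
    probReal_compl_eq_one_sub₀ ((hX.pair hY).null S)
  have c2 : (μ.prod μ).real {p | (X p.1, Y p.2) ∈ Sᶜ} =
      1 - (μ.prod μ).real {p | (X p.1, Y p.2) ∈ S} :=
    probReal_compl_eq_one_sub₀ ((hX.prod hY).null S)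
  have k1 := key S
  have k2 := key Sᶜ
  rw [c1, c2] at k2
  rw [abs_le]
  constructor <;> linarith

end Q292.CDep
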