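import Pool.Agent.Q292.CDep.Clu
import Pool.Agent.H362P.Num
import Pool.Agent.H160R2.SA.Arm

/-!
Connection probabilities of boxes.
-/

set_option autoImplicit false

namespace Q292.CDep

open Finset H974 Pool.Agent.H160R2.CV MeasureTheory
open Pool.Agent.H160R2.CV.Quad Pool.Agent.H389R2.CD H362P

/-- the box of radius `r` around `x` is connected to distance `n` -/
def Q1 (x : Vtx) (r n : ℕ) (F : Set Edg) : Prop :=
  ∃ u v : Vtx, nv (u - x) ≤ r ∧ n ≤ nv (v - x) ∧ Reach F u v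

/-- two boxes are connected -/
def Q2 (x : Vtx) (r : ℕ) (y : Vtx) (k : ℕ) (F : Set Edg) : Prop :=
  ∃ u v : Vtx, nv (u - x) ≤ r ∧ nv (v - y) ≤ k ∧ Reach F u v

theorem Q1.mono {x : Vtx} {r n : ℕ} {F G : Set Edg} (h : F ⊆ G) (hF : Q1 x r n F) :
    Q1 x r n G := by
  obtain ⟨u, v, h1, h2, h3⟩ := hF
  exact ⟨u, v, h1, h2, h3.mono h⟩

theorem Q2.mono {x : Vtx} {r : ℕ} {y : Vtx} {k : ℕ} {F G : Set Edg} (h : F ⊆ G)
    (hF : Q2 x r y k F) : Q2 x r y k G := by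
  obtain ⟨u, v, h1, h2, h3⟩ := hF
  exact ⟨u, v, h1, h2, h3.mono h⟩

theorem Q1_box {x : Vtx} {r n : ℕ} {F : Set Edg} (hF : Q1 x r n F) :
    ∃ m : ℕ, Q1 x r n (F ∩ ↑(boxE m)) := by
  obtain ⟨u, v, h1, h2, h3⟩ := hF
  obtain ⟨m, hm⟩ := InfAux.reach_box h3
  exact ⟨m, u, v, h1, h2, hm⟩

theorem Q2_box {x : Vtx} {r : ℕ} {y : Vtx} {k : ℕ} {F : Set Edg} (hF : Q2 x r y k F) :
    ∃ m : ℕ, Q2 x r y k (F ∩ ↑(boxE m)) := by
  obtain ⟨u, v, h1, h2, h3⟩ := hF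
  obtain ⟨m, hm⟩ := InfAux.reach_box h3
  exact ⟨m, u, v, h1, h2, hm⟩

theorem Cr_of_reach {F : Finset Edg} {x : Vtx} {r n : ℕ} (hrn : r ≤ n) {u v : Vtx}
    (hu : nv (u - x) ≤ r) (hv : n ≤ nv (v - x)) (h : Reach (↑F) u v) : Cr x r n F := by
  have hrn' : (r : ℤ) ≤ n := by exact_mod_cast hrn
  unfold nv at hu hv
  simp only [Prod.fst_sub, Prod.snd_sub] at hu hv
  obtain ⟨w, k1, k2, k3⟩ := first_exit (a := x.1 - n) (b := x.1 + n) (c := x.2 - n)
    (d := x.2 + n) (u := u) (by unfold inR; omega) h (by omega)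
  obtain ⟨u', hu', hr'⟩ := last_exit (a := x.1 - r) (b := x.1 + r) (c := x.2 - r) (d := x.2 + r)
    (x := u) (by unfold inR; omega) k3
  refine ⟨u', w, hu', k1, k2, hr'.mono ?_⟩
  intro e he
  refine ⟨he.1.1, ?_⟩
  rw [Finset.coe_sdiff]
  exact ⟨he.1.2, he.2⟩

theorem pr_Q1_le (S : Finset Edg) (x : Vtx) {r n : ℕ} (hrn : r ≤ n) :
    Pr P S (fun F => Q1 x r n (↑F)) ≤ barm (1 / 2) r n := by
  refine le_trans (Pr_mono Quad.okP ?_) (pr_Cr S x r n)
  rintro F _ ⟨u, v, h1, h2, h3⟩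
  exact Cr_of_reach hrn h1 h2 h3

theorem pr_Q2_le (S : Finset Edg) {x y : Vtx} {r k m : ℕ} (hr : r ≤ m) (hk : k ≤ m)
    (hm : 2 * m + 1 ≤ nv (x - y)) :
    Pr P S (fun F => Q2 x r y k (↑F)) ≤ barm (1 / 2) r m * barm (1 / 2) k m := by
  have hd : Disjoint (bo x m \ bo x r) (bo y m \ bo y k) :=
    Finset.disjoint_of_subset_left Finset.sdiff_subset
      (Finset.disjoint_of_subset_right Finset.sdiff_subset (bo_disj (by omega)))
  have h1 := indep2 S _ _ hd (Cr_inc x r m) (Cr_inc y k m) Cr_loc Cr_loc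
  refine le_trans (Pr_mono Quad.okP ?_) (h1.trans ?_)
  · rintro F _ ⟨u, v, h1, h2, h3⟩
    have t1 := nv_tri x v y
    have t2 := w_nv_comm x v
    have t3 := nv_tri x u y
    have t4 := w_nv_comm x u
    have t5 := nv_tri x y u
    constructor
    · refine Cr_of_reach hr h1 ?_ h3
      omega
    · refine Cr_of_reach hk h2 ?_ h3.symm
      omega
  · exact mul_le_mul (pr_Cr _ _ _ _) (pr_Cr _ _ _ _) (Pr_nonneg Quad.okP _ _)
      (barm_nonneg (by norm_num) (by norm_num) _ _)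

theorem pr_Q1_ge {S : Finset Edg} {x : Vtx} {r n : ℕ} (hS : bo x n ⊆ S) :
    barm (1 / 2) r n ≤ Pr P S (fun F => Q1 x r n (↑F)) := by
  refine (pr_Ex1_ge hS).trans (Pr_mono Quad.okP ?_)
  intro F _ h
  exact Ex1_out h

/-- the law -/
noncomputable abbrev μ : Measure Cfg := bondLaw hlf

theorem P1_le (x : Vtx) {r n : ℕ} (hrn : r ≤ n) :
    μ.real {ω | Q1 x r n (opn ω)} ≤ barm (1 / 2) r n :=
  InfAux.upper (Q1 x r n) (fun _ _ h hF => hF.mono h) (fun _ hF => Q1_box hF) _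
    (fun m => pr_Q1_le (boxE m) x hrn)

theorem P1_ge (x : Vtx) (r n : ℕ) : barm (1 / 2) r n ≤ μ.real {ω | Q1 x r n (opn ω)} :=
  (pr_Q1_ge (x := x) (r := r) (n := n) bo_sub).trans
    (InfAux.lower (Q1 x r n) (fun _ _ h hF => hF.mono h) (nv x + n))

theorem P2_le {x y : Vtx} {r k m : ℕ} (hr : r ≤ m) (hk : k ≤ m)
    (hm : 2 * m + 1 ≤ nv (x - y)) :
    μ.real {ω | Q2 x r y k (opn ω)} ≤ barm (1 / 2) r m * barm (1 / 2) k m :=
  InfAux.upper (Q2 x r y k) (fun _ _ h hF => hF.mono h) (fun _ hF => Q2_box hF) _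
    (fun M => pr_Q2_le (boxE M) hr hk hm)

/-! ### powers -/

/-- the exponent -/
noncomputable abbrev al : ℝ := 5 / 48

theorem al_le_one {t : ℝ} (ht : 1 ≤ t) : t ^ al ≤ t := by
  calc t ^ al ≤ t ^ (1 : ℝ) := Real.rpow_le_rpow_of_exponent_le ht (by norm_num)
    _ = t := Real.rpow_one t

theorem barm_up : ∃ C : ℝ, 1 ≤ C ∧ ∀ r n : ℕ, 1 ≤ n →
    barm (1 / 2) r n ≤ C * (((r : ℝ) + 1) / n) ^ al := by
  obtain ⟨C1, hC1, hb⟩ := barm_le Pool.Agent.H160R2.SA.arSharp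
  obtain ⟨c0, C0, hc0, hC0, har⟩ := Pool.Agent.H160R2.SA.arSharp
  refine ⟨C0 + C1 + 3, by linarith, fun r n hn => ?_⟩
  have hn0 : (0 : ℝ) < n := by exact_mod_cast hn
  have hp : 0 < (((r : ℝ) + 1) / n) ^ al := Real.rpow_pos_of_pos (by positivity) _
  have key : ∀ C : ℝ, C ≤ C0 + C1 + 3 → barm (1 / 2) r n ≤ C * (((r : ℝ) + 1) / n) ^ al →
      barm (1 / 2) r n ≤ (C0 + C1 + 3) * (((r : ℝ) + 1) / n) ^ al :=
    fun C hC h => h.trans (mul_le_mul_of_nonneg_right hC hp.le)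
  rcases Nat.eq_zero_or_pos r with h0 | hr
  · refine key C0 (by linarith) ?_
    rw [h0, barm_zero]
    have h1 := (har n hn).2
    have e : (((0 : ℕ) : ℝ) + 1) / n = (n : ℝ)⁻¹ := by
      rw [Nat.cast_zero, zero_add, one_div]
    rw [e, Real.inv_rpow hn0.le, ← Real.rpow_neg hn0.le]
    exact h1
  · rcases Nat.lt_or_ge n (3 * r) with h3 | h3
    · refine key 3 (by linarith) ?_
      refine (barm_le_one (by norm_num) (by norm_num) r n).trans ?_
      have h1 : (1 : ℝ) / 3 ≤ ((r : ℝ) + 1) / n := by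
        rw [div_le_div_iff₀ (by norm_num) hn0]
        have : (n : ℝ) ≤ 3 * r := by exact_mod_cast h3.le
        linarith
      have h2 : (1 / 3 : ℝ) ^ al ≤ (((r : ℝ) + 1) / n) ^ al :=
        Real.rpow_le_rpow (by norm_num) h1 (by norm_num)
      have h4 : (1 / 3 : ℝ) ≤ (1 / 3 : ℝ) ^ al := by
        have := Real.rpow_le_rpow_of_exponent_ge (x := (1 / 3 : ℝ)) (y := 1) (z := al)
          (by norm_num) (by norm_num) (by norm_num)
        rwa [Real.rpow_one] at this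
      linarith
    · refine key C1 (by linarith) ?_
      refine (hb r n hr h3).trans ?_
      apply mul_le_mul_of_nonneg_left _ hC1.le
      apply Real.rpow_le_rpow (by positivity) _ (by norm_num)
      apply div_le_div_of_nonneg_right _ hn0.le
      linarith

theorem barm_lo : ∃ c : ℝ, 0 < c ∧ ∀ r n : ℕ, 1 ≤ n → r ≤ n →
    c * (((r : ℝ) + 1) / n) ^ al ≤ barm (1 / 2) r n := by
  obtain ⟨c0, C0, hc0, hC0, har⟩ := Pool.Agent.H160R2.SA.arSharp
  refine ⟨c0 / (2 * C0 + 1), by positivity, fun r n hn hrn => ?_⟩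
  have hn0 : (0 : ℝ) < n := by exact_mod_cast hn
  have hr1 : (0 : ℝ) < (r : ℝ) + 1 := by positivity
  have hb : 0 ≤ barm (1 / 2) r n := barm_nonneg (by norm_num) (by norm_num) _ _
  have h1 : ar r ≤ (2 * C0 + 1) * ((r : ℝ) + 1) ^ (-al) := by
    rcases Nat.eq_zero_or_pos r with h0 | hr
    · rw [h0]
      have : ar 0 = 1 := arm_zero _
      rw [this]
      simp only [Nat.cast_zero, zero_add, Real.one_rpow]
      linarith
    · have h2 := (har r hr).2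
      have hr0 : (0 : ℝ) < r := by exact_mod_cast hr
      have hr1' : (1 : ℝ) ≤ r := by exact_mod_cast hr
      have h3 := pw (t := (r : ℝ)) (u := (r : ℝ) + 1) (k := 2) hr0 hr1 (by norm_num)
        (by linarith)
      have hp : 0 < ((r : ℝ) + 1) ^ (-(5 / 48 : ℝ)) := Real.rpow_pos_of_pos hr1 _
      calc ar r ≤ C0 * (r : ℝ) ^ (-(5 / 48 : ℝ)) := h2
        _ ≤ C0 * (2 * ((r : ℝ) + 1) ^ (-(5 / 48 : ℝ))) := mul_le_mul_of_nonneg_left h3 hC0.le
        _ ≤ (2 * C0 + 1) * ((r : ℝ) + 1) ^ (-(5 / 48 : ℝ)) := by nlinarith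
  have h2 := (har n hn).1
  have h3 := ar_split hrn
  have e1 : (((r : ℝ) + 1) / n) ^ al = ((r : ℝ) + 1) ^ al * (n : ℝ) ^ (-al) := by
    rw [Real.div_rpow hr1.le hn0.le, Real.rpow_neg hn0.le]
    rfl
  have e2 : ((r : ℝ) + 1) ^ al * ((r : ℝ) + 1) ^ (-al) = 1 := by
    rw [← Real.rpow_add hr1]
    simp
  have hp : 0 < ((r : ℝ) + 1) ^ al := Real.rpow_pos_of_pos hr1 _
  rw [e1, div_mul_eq_mul_div, div_le_iff₀ (by positivity)]
  calc c0 * (((r : ℝ) + 1) ^ al * (n : ℝ) ^ (-al))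
      = ((r : ℝ) + 1) ^ al * (c0 * (n : ℝ) ^ (-al)) := by ring
    _ ≤ ((r : ℝ) + 1) ^ al * ar n := mul_le_mul_of_nonneg_left h2 hp.le
    _ ≤ ((r : ℝ) + 1) ^ al * (ar r * barm (1 / 2) r n) := mul_le_mul_of_nonneg_left h3 hp.le
    _ ≤ ((r : ℝ) + 1) ^ al * (((2 * C0 + 1) * ((r : ℝ) + 1) ^ (-al)) * barm (1 / 2) r n) := by
        apply mul_le_mul_of_nonneg_left _ hp.le
        exact mul_le_mul_of_nonneg_right h1 hb
    _ = barm (1 / 2) r n * (2 * C0 + 1) * (((r : ℝ) + 1) ^ al * ((r : ℝ) + 1) ^ (-al)) := by ring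
    _ = barm (1 / 2) r n * (2 * C0 + 1) := by rw [e2, mul_one]

/-! ### boxes and their clusters -/

/-- the box of radius `r` around `x` -/
def Bx (x : ℤ × ℤ) (r : ℕ) : Set (ℤ × ℤ) := {u | nv (u - x) ≤ r}

theorem Bx_finite (x : ℤ × ℤ) (r : ℕ) : (Bx x r).Finite := by
  have : Bx x r ⊆ (Set.Icc (x.1 - r) (x.1 + r)) ×ˢ (Set.Icc (x.2 - r) (x.2 + r)) := by
    intro u hu
    have hu' : nv (u - x) ≤ r := hu
    unfold nv at hu'
    simp only [Prod.fst_sub, Prod.snd_sub] at hu'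
    simp only [Set.mem_prod, Set.mem_Icc]
    omega
  exact ((Set.finite_Icc _ _).prod (Set.finite_Icc _ _)).subset this

theorem mem_clu {x z : ℤ × ℤ} {r : ℕ} {ω : Cfg} :
    z ∈ clu (Bx x r) ω ↔ ∃ u, nv (u - x) ≤ r ∧ Reach (opn ω) u z := by
  constructor
  · rintro ⟨u, hu, h⟩
    exact ⟨u, hu, (open_reach ω u z).mp h⟩
  · rintro ⟨u, hu, h⟩
    exact ⟨u, hu, (open_reach ω u z).mpr h⟩

theorem clu_finite (x : ℤ × ℤ) (r : ℕ) : ∀ᵐ ω ∂μ, (clu (Bx x r) ω).Finite := by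
  obtain ⟨C, hC, hb⟩ := barm_up
  have h1 : ∀ n : ℕ, 1 ≤ n → r ≤ n → μ.real {ω | ¬ (clu (Bx x r) ω).Finite} ≤
      C * (((r : ℝ) + 1) / n) ^ al := by
    intro n hn hrn
    refine le_trans (measureReal_mono ?_) ((P1_le x hrn).trans (hb r n hn))
    intro ω hω
    by_contra hcon
    apply hω
    refine (Bx_finite x n).subset ?_
    intro v hv
    obtain ⟨u, hu, hr⟩ := mem_clu.mp hv
    show nv (v - x) ≤ n
    by_contra hlt
    exact hcon ⟨u, v, hu, by omega, hr⟩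
  have h2 : Filter.Tendsto (fun n : ℕ => C * (((r : ℝ) + 1) / n) ^ al) Filter.atTop
      (nhds (C * 0 ^ al)) := by
    apply Filter.Tendsto.const_mul
    apply Filter.Tendsto.rpow_const
    · exact tendsto_const_div_atTop_nhds_zero_nat _
    · right; norm_num
  rw [Real.zero_rpow (by norm_num), mul_zero] at h2
  have h3 : μ.real {ω | ¬ (clu (Bx x r) ω).Finite} ≤ 0 := by
    apply ge_of_tendsto h2
    filter_upwards [Filter.eventually_ge_atTop (max 1 r)] with n hn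
    exact h1 n (by omega) (by omega)
  have h4 : μ.real {ω | ¬ (clu (Bx x r) ω).Finite} = 0 := le_antisymm h3 measureReal_nonneg
  rw [measureReal_eq_zero_iff] at h4
  exact h4

end Q292.CDep
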