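import Pool.Agent.Q292.CDep.Abs
import Pool.Agent.H974R2.Infinite

/-!
Clusters of sets of vertices, cylinders, and the comparison of the joint law of two clusters with
the product law.
-/

set_option autoImplicit false

namespace Q292.CDep

open MeasureTheory Set H974 ProbabilityTheory
open scoped ENNReal

/-- configurations -/
abbrev Cfg := sqLattice.edgeSet → Bool

/-- the union of the open clusters which meet `A` -/
def clu (A : Set (ℤ × ℤ)) (ω : Cfg) : Set (ℤ × ℤ) := {v | ∃ u ∈ A, (openGraph ω).Reachable u v}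

/-- the edges with an end in `K` -/
def inc (K : Set (ℤ × ℤ)) : Set sqLattice.edgeSet := {e | ∃ v ∈ K, v ∈ (e : Sym2 (ℤ × ℤ))}

/-- the clusters which meet `A`, with their open edges -/
def cgr (A : Set (ℤ × ℤ)) (ω : Cfg) : Set (ℤ × ℤ) × Set sqLattice.edgeSet :=
  (clu A ω, {e | ω e = true ∧ e ∈ inc (clu A ω)})

theorem og_adj (ω : Cfg) (u v : ℤ × ℤ) :
    (openGraph ω).Adj u v ↔ ∃ h : s(u, v) ∈ sqLattice.edgeSet, ω ⟨s(u, v), h⟩ = true := by
  unfold openGraph
  rw [SimpleGraph.fromEdgeSet_adj]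
  constructor
  · rintro ⟨h, -⟩
    exact h
  · rintro ⟨h, h'⟩
    exact ⟨⟨h, h'⟩, (SimpleGraph.mem_edgeSet _).mp h |>.ne⟩

theorem sub_clu (A : Set (ℤ × ℤ)) (ω : Cfg) : A ⊆ clu A ω :=
  fun u hu => ⟨u, hu, SimpleGraph.Reachable.refl _⟩

theorem clu_step {A : Set (ℤ × ℤ)} {ω : Cfg} {u v : ℤ × ℤ} (hu : u ∈ clu A ω)
    (h : (openGraph ω).Adj u v) : v ∈ clu A ω := by
  obtain ⟨w, hw, hr⟩ := hu
  exact ⟨w, hw, hr.trans h.reachable⟩

theorem clu_reach {A : Set (ℤ × ℤ)} {ω : Cfg} {u v : ℤ × ℤ} (hu : u ∈ clu A ω)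
    (h : (openGraph ω).Reachable u v) : v ∈ clu A ω := by
  obtain ⟨w, hw, hr⟩ := hu
  exact ⟨w, hw, hr.trans h⟩

/-- a set which contains `A` and is closed under the steps contains the clusters -/
theorem clu_sub_of {A K : Set (ℤ × ℤ)} {ω : Cfg} (hA : A ⊆ K)
    (h : ∀ u v, u ∈ K → (openGraph ω).Adj u v → v ∈ K) : clu A ω ⊆ K := by
  rintro v ⟨u, hu, p⟩
  have key : ∀ u v : ℤ × ℤ, (openGraph ω).Walk u v → u ∈ K → v ∈ K := by
    intro u v p
    induction p with
    | nil => exact id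
    | cons hadj p ih => exact fun hu => ih (h _ _ hu hadj)
  obtain ⟨p⟩ := p
  exact key _ _ p (hA hu)

theorem clu_le {A : Set (ℤ × ℤ)} {ω ω' : Cfg} (h : ∀ e ∈ inc (clu A ω), ω' e = ω e) :
    clu A ω' ⊆ clu A ω := by
  refine clu_sub_of (sub_clu A ω) ?_
  intro u v hu hadj
  obtain ⟨he, ho⟩ := (og_adj ω' u v).mp hadj
  refine clu_step hu ((og_adj ω u v).mpr ⟨he, ?_⟩)
  rw [← h _ ⟨u, hu, Sym2.mem_mk_left u v⟩]
  exact ho

theorem clu_ge {A : Set (ℤ × ℤ)} {ω ω' : Cfg} (h : ∀ e ∈ inc (clu A ω), ω' e = ω e) :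
    clu A ω ⊆ clu A ω' := by
  have h1 : clu A ω ⊆ clu A ω ∩ clu A ω' := by
    refine clu_sub_of (fun u hu => ⟨sub_clu A ω hu, sub_clu A ω' hu⟩) ?_
    rintro u v ⟨hu, hu'⟩ hadj
    obtain ⟨he, ho⟩ := (og_adj ω u v).mp hadj
    refine ⟨clu_step hu hadj, clu_step hu' ((og_adj ω' u v).mpr ⟨he, ?_⟩)⟩
    rw [h _ ⟨u, hu, Sym2.mem_mk_left u v⟩]
    exact ho
  exact fun v hv => (h1 hv).2

theorem clu_congr {A : Set (ℤ × ℤ)} {ω ω' : Cfg} (h : ∀ e ∈ inc (clu A ω), ω' e = ω e) :
    clu A ω' = clu A ω := Subset.antisymm (clu_le h) (clu_ge h)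

theorem cgr_iff {A : Set (ℤ × ℤ)} {ω ω' : Cfg} :
    cgr A ω' = cgr A ω ↔ ∀ e ∈ inc (clu A ω), ω' e = ω e := by
  constructor
  · intro h e he
    have h1 : clu A ω' = clu A ω := congrArg Prod.fst h
    have h2 : e ∈ (cgr A ω').2 ↔ e ∈ (cgr A ω).2 := by rw [h]
    have h3 : (ω' e = true ∧ e ∈ inc (clu A ω')) ↔ (ω e = true ∧ e ∈ inc (clu A ω)) := h2
    rw [h1] at h3
    simp only [he, and_true] at h3
    exact Bool.eq_iff_iff.mpr h3
  · intro h
    have h1 := clu_congr h
    unfold cgr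
    rw [h1]
    refine Prod.ext rfl ?_
    ext e
    constructor
    · rintro ⟨h3, h4⟩
      exact ⟨by rw [← h e h4]; exact h3, h4⟩
    · rintro ⟨h3, h4⟩
      exact ⟨by rw [h e h4]; exact h3, h4⟩

theorem inc_finite {K : Set (ℤ × ℤ)} (h : K.Finite) : (inc K).Finite := by
  have h1 : inc K ⊆ ⋃ v ∈ K, {e : sqLattice.edgeSet | v ∈ (e : Sym2 (ℤ × ℤ))} := by
    rintro e ⟨v, hv, hve⟩
    rw [mem_iUnion₂]
    exact ⟨v, hv, hve⟩
  refine (h.biUnion ?_).subset h1
  rintro ⟨a, b⟩ -
  have h2 : {e : sqLattice.edgeSet | (a, b) ∈ (e : Sym2 (ℤ × ℤ))} ⊆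
      {toE (a, b, true), toE (a - 1, b, true), toE (a, b, false), toE (a, b - 1, false)} := by
    rintro ⟨e, he⟩ hve
    induction e using Sym2.ind with
    | _ p q =>
      obtain ⟨⟨x, y, d⟩, h2⟩ := adj_edge (u := p) (v := q) he
      have h3 : (⟨s(p, q), he⟩ : sqLattice.edgeSet) = toE (x, y, d) := by
        apply Subtype.ext
        show s(p, q) = s(src (x, y, d), tgt (x, y, d))
        rcases h2 with ⟨h2, h4⟩ | ⟨h2, h4⟩
        · rw [h2, h4]
        · rw [h2, h4, Sym2.eq_swap]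
      have h5 : (a, b) = src (x, y, d) ∨ (a, b) = tgt (x, y, d) := by
        have h6 : (a, b) ∈ s(p, q) := hve
        rw [Sym2.mem_iff] at h6
        rcases h2 with ⟨h2, h4⟩ | ⟨h2, h4⟩
        · rw [h2, h4]; exact h6
        · rw [h2, h4]; exact h6.symm
      rw [h3]
      simp only [mem_insert_iff, mem_singleton_iff]
      cases d
      · simp only [src_mk, tgt_false, Prod.mk.injEq] at h5
        rcases h5 with ⟨h5, h6⟩ | ⟨h5, h6⟩
        · right; right; left; rw [h5, h6]
        · right; right; right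
          rw [h5, h6]
          simp
      · simp only [src_mk, tgt_true, Prod.mk.injEq] at h5
        rcases h5 with ⟨h5, h6⟩ | ⟨h5, h6⟩
        · left; rw [h5, h6]
        · right; left
          rw [h5, h6]
          simp
  exact (Set.toFinite _).subset h2

/-! ### cylinders -/

/-- the configurations which agree with `η` on `T` -/
def cyl (T : Finset sqLattice.edgeSet) (η : Cfg) : Set Cfg := {ω | ∀ e ∈ T, ω e = η e}

theorem cyl_pi (T : Finset sqLattice.edgeSet) (η : Cfg) :
    cyl T η = Set.pi (↑T : Set sqLattice.edgeSet) (fun e => {η e}) := by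
  ext ω
  simp [cyl, Set.mem_pi]

theorem cyl_meas (T : Finset sqLattice.edgeSet) (η : Cfg) : MeasurableSet (cyl T η) := by
  rw [cyl_pi]
  exact MeasurableSet.pi (Finset.countable_toSet _) (fun _ _ => MeasurableSet.of_discrete)

theorem bern_half (b : Bool) : (bernoulliMeasure true false hlf) {b} = 2⁻¹ := by
  have h : (bernoulliMeasure true false hlf).real {b} = 1 / 2 := by
    cases b
    · rw [bernoulliMeasure_real_apply_of_notMem_of_mem hlf MeasurableSet.of_discrete
        (by simp) (by simp)]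
      show (1 : ℝ) - (hlf : ℝ) = 1 / 2
      have : (hlf : ℝ) = 1 / 2 := rfl
      rw [this]; norm_num
    · rw [bernoulliMeasure_real_apply_of_mem_of_notMem hlf MeasurableSet.of_discrete
        (by simp) (by simp)]
      rfl
  rw [measureReal_def] at h
  rw [← ENNReal.ofReal_toReal (measure_ne_top (bernoulliMeasure true false hlf) {b}), h]
  rw [one_div, ENNReal.ofReal_inv_of_pos (by norm_num)]
  norm_num

theorem cyl_law (T : Finset sqLattice.edgeSet) (η : Cfg) :
    bondLaw hlf (cyl T η) = (2⁻¹ : ℝ≥0∞) ^ T.card := by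
  rw [cyl_pi]
  unfold bondLaw
  rw [Measure.infinitePi_pi _ (fun _ _ => MeasurableSet.of_discrete)]
  rw [Finset.prod_congr rfl (fun e _ => bern_half (η e)), Finset.prod_const]

theorem fibre {A : Set (ℤ × ℤ)} {η : Cfg} (T : Finset sqLattice.edgeSet)
    (hT : ∀ e, e ∈ T ↔ e ∈ inc (clu A η)) : {ω | cgr A ω = cgr A η} = cyl T η := by
  ext ω
  show cgr A ω = cgr A η ↔ ∀ e ∈ T, ω e = η e
  rw [cgr_iff]
  exact forall_congr' fun e => by rw [hT]

/-- the values with finitely many vertices and edges -/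
def fin : Set (Set (ℤ × ℤ) × Set sqLattice.edgeSet) := {p | p.1.Finite ∧ p.2.Finite}

theorem fin_countable : fin.Countable := by
  have h1 : {t : Set (ℤ × ℤ) | t.Finite}.Countable := by
    have := Set.countable_ofPred_finite_subset (s := (univ : Set (ℤ × ℤ))) (Set.to_countable _)
    exact this.mono (fun t (ht : t.Finite) => (⟨ht, subset_univ t⟩ : t.Finite ∧ t ⊆ univ))
  have h2 : {t : Set sqLattice.edgeSet | t.Finite}.Countable := by
    have := Set.countable_ofPred_finite_subset (s := (univ : Set sqLattice.edgeSet))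
      (Set.to_countable _)
    exact this.mono (fun t (ht : t.Finite) => (⟨ht, subset_univ t⟩ : t.Finite ∧ t ⊆ univ))
  exact h1.prod h2

theorem cgr_fin {A : Set (ℤ × ℤ)} {ω : Cfg} (h : (clu A ω).Finite) : cgr A ω ∈ fin :=
  ⟨h, (inc_finite h).subset (fun _ he => he.2)⟩

theorem cgr_disc {A : Set (ℤ × ℤ)} (h : ∀ᵐ ω ∂(bondLaw hlf), (clu A ω).Finite) :
    Disc (bondLaw hlf) (cgr A) fin := by
  refine ⟨fin_countable, ?_, ?_⟩
  · filter_upwards [h] with ω hω
    exact cgr_fin hω
  · intro a ha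
    by_cases hne : ∃ η, cgr A η = a
    · obtain ⟨η, rfl⟩ := hne
      have hf : (inc (clu A η)).Finite := inc_finite ha.1
      rw [fibre hf.toFinset (fun e => hf.mem_toFinset)]
      exact cyl_meas _ _
    · have : {ω | cgr A ω = a} = ∅ := by
        ext ω
        simp only [mem_empty_iff_false, iff_false]
        exact fun h => hne ⟨ω, h⟩
      rw [this]
      exact MeasurableSet.empty

/-- **The basic comparison.** For values with disjoint sets of vertices the joint law is at least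
the product law. -/
theorem joint_ge {A B : Set (ℤ × ℤ)} {a b : Set (ℤ × ℤ) × Set sqLattice.edgeSet}
    (ha : a ∈ fin) (hb : b ∈ fin) (hab : Disjoint a.1 b.1) :
    bondLaw hlf {ω | cgr A ω = a} * bondLaw hlf {ω | cgr B ω = b} ≤
      bondLaw hlf {ω | cgr A ω = a ∧ cgr B ω = b} := by
  classical
  by_cases hA : ∃ η, cgr A η = a
  swap
  · have : {ω | cgr A ω = a} = ∅ := by
      ext ω
      simp only [mem_empty_iff_false, iff_false]
      exact fun h => hA ⟨ω, h⟩
    rw [this, measure_empty, zero_mul]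
    exact zero_le
  by_cases hB : ∃ η, cgr B η = b
  swap
  · have : {ω | cgr B ω = b} = ∅ := by
      ext ω
      simp only [mem_empty_iff_false, iff_false]
      exact fun h => hB ⟨ω, h⟩
    rw [this, measure_empty, mul_zero]
    exact zero_le
  obtain ⟨η, rfl⟩ := hA
  obtain ⟨ζ, rfl⟩ := hB
  have hab' : Disjoint (clu A η) (clu B ζ) := hab
  have hf : (inc (clu A η)).Finite := inc_finite ha.1
  have hg : (inc (clu B ζ)).Finite := inc_finite hb.1
  set T := hf.toFinset with hT
  set U := hg.toFinset with hU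
  have hTm : ∀ e, e ∈ T ↔ e ∈ inc (clu A η) := fun e => hf.mem_toFinset
  have hUm : ∀ e, e ∈ U ↔ e ∈ inc (clu B ζ) := fun e => hg.mem_toFinset
  -- the common edges are closed in both configurations
  have hcl : ∀ e, e ∈ T → e ∈ U → η e = false ∧ ζ e = false := by
    intro e h1 h2
    obtain ⟨u, hu, hue⟩ := (hTm e).mp h1
    obtain ⟨v, hv, hve⟩ := (hUm e).mp h2
    have huv : u ≠ v := by
      rintro rfl
      exact Set.disjoint_left.mp hab' hu hv
    have he : (e : Sym2 (ℤ × ℤ)) = s(u, v) := (Sym2.mem_and_mem_iff huv).mp ⟨hue, hve⟩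
    have hE : s(u, v) ∈ sqLattice.edgeSet := he ▸ e.2
    have he' : e = ⟨s(u, v), hE⟩ := Subtype.ext he
    constructor
    · by_contra hcon
      rw [Bool.not_eq_false] at hcon
      rw [he'] at hcon
      exact Set.disjoint_left.mp hab' (clu_step hu ((og_adj η u v).mpr ⟨hE, hcon⟩)) hv
    · by_contra hcon
      rw [Bool.not_eq_false] at hcon
      rw [he'] at hcon
      exact Set.disjoint_left.mp hab' hu
        (clu_step hv (((og_adj ζ u v).mpr ⟨hE, hcon⟩).symm))
  set θ : Cfg := fun e => if e ∈ T then η e else ζ e with hθ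
  have hset : {ω | cgr A ω = cgr A η ∧ cgr B ω = cgr B ζ} = cyl (T ∪ U) θ := by
    have e1 : {ω | cgr A ω = cgr A η ∧ cgr B ω = cgr B ζ} = cyl T η ∩ cyl U ζ := by
      rw [← fibre T hTm, ← fibre U hUm]
      rfl
    rw [e1]
    ext ω
    constructor
    · rintro ⟨h1, h2⟩ e he
      rw [hθ]
      simp only
      split_ifs with hm
      · exact h1 e hm
      · rcases Finset.mem_union.mp he with h3 | h3
        · exact absurd h3 hm
        · exact h2 e h3
    · intro h
      refine ⟨fun e he => ?_, fun e he => ?_⟩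
      · have := h e (Finset.mem_union_left _ he)
        rw [hθ] at this
        simp only [he, if_true] at this
        exact this
      · have := h e (Finset.mem_union_right _ he)
        rw [hθ] at this
        simp only at this
        split_ifs at this with hm
        · rw [this, (hcl e hm he).1, (hcl e hm he).2]
        · exact this
  rw [hset, fibre T hTm, fibre U hUm, cyl_law, cyl_law, cyl_law, ← pow_add]
  apply pow_le_pow_right_of_le_one' (by
    rw [ENNReal.inv_le_one]
    norm_num)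
  exact Finset.card_union_le _ _

/-- **Upper bound by the intersection of two independent clusters.** -/
theorem tv_upper {A B : Set (ℤ × ℤ)} (hA : ∀ᵐ ω ∂(bondLaw hlf), (clu A ω).Finite)
    (hB : ∀ᵐ ω ∂(bondLaw hlf), (clu B ω).Finite)
    (S : Set ((Set (ℤ × ℤ) × Set sqLattice.edgeSet) × (Set (ℤ × ℤ) × Set sqLattice.edgeSet))) :
    |(bondLaw hlf).real {ω | (cgr A ω, cgr B ω) ∈ S} -
      ((bondLaw hlf).prod (bondLaw hlf)).real {p | (cgr A p.1, cgr B p.2) ∈ S}| ≤
      ((bondLaw hlf).prod (bondLaw hlf)).real {p | ¬ Disjoint (clu A p.1) (clu B p.2)} :=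
  tv_le (cgr_disc hA) (cgr_disc hB) {q | ¬ Disjoint q.1.1 q.2.1}
    (fun _ ha _ hb hab => joint_ge ha hb (not_not.mp hab)) S

end Q292.CDep
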