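import Pool.Agent.Q292.CDep.Clu

/-!
The exact formula for the clusters of two vertices.
-/

set_option autoImplicit false

namespace Q292.CDep

open MeasureTheory Set H974 ProbabilityTheory
open scoped ENNReal

theorem clu_disc {A : Set (ℤ × ℤ)} (h : ∀ᵐ ω ∂(bondLaw hlf), (clu A ω).Finite) :
    Disc (bondLaw hlf) (clu A) {K | K.Finite} := by
  refine ⟨?_, h, ?_⟩
  · have := Set.countable_ofPred_finite_subset (s := (univ : Set (ℤ × ℤ))) (Set.to_countable _)
    exact this.mono (fun t (ht : t.Finite) => (⟨ht, subset_univ t⟩ : t.Finite ∧ t ⊆ univ))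
  · intro K hK
    have hK' : K.Finite := hK
    have : {ω | clu A ω = K} = ⋃ a ∈ fin ∩ {a | a.1 = K}, {ω | cgr A ω = a} := by
      ext ω
      rw [mem_iUnion₂]
      constructor
      · intro hω
        have hω' : clu A ω = K := hω
        exact ⟨cgr A ω, ⟨cgr_fin (by rw [hω']; exact hK'), hω⟩, rfl⟩
      · rintro ⟨a, ⟨-, ha⟩, hω⟩
        have hω' : cgr A ω = a := hω
        have ha' : a.1 = K := ha
        show clu A ω = K
        rw [← ha', ← hω']
        rfl
    rw [this]
    exact MeasurableSet.biUnion (fin_countable.mono inter_subset_left)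
      (fun a ha => (cgr_disc h).meas a ha.1)

theorem clu_single {x y : ℤ × ℤ} {ω : Cfg} (h : ¬ Disjoint (clu {x} ω) (clu {y} ω)) :
    clu {x} ω = clu {y} ω := by
  rw [Set.not_disjoint_iff] at h
  obtain ⟨z, ⟨u, hu, h1⟩, ⟨v, hv, h2⟩⟩ := h
  rw [mem_singleton_iff] at hu hv
  subst hu
  subst hv
  ext w
  constructor
  · rintro ⟨u', hu', h3⟩
    rw [mem_singleton_iff] at hu'
    subst hu'
    exact ⟨v, rfl, (h2.trans h1.symm).trans h3⟩
  · rintro ⟨u', hu', h3⟩
    rw [mem_singleton_iff] at hu'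
    subst hu'
    exact ⟨u, rfl, (h1.trans h2.symm).trans h3⟩

theorem exact_le {x y : ℤ × ℤ} (hx : ∀ᵐ ω ∂(bondLaw hlf), (clu {x} ω).Finite)
    (hy : ∀ᵐ ω ∂(bondLaw hlf), (clu {y} ω).Finite) (S : Set (Set (ℤ × ℤ) × Set (ℤ × ℤ))) :
    |(bondLaw hlf).real {ω | (clu {x} ω, clu {y} ω) ∈ S} -
      ((bondLaw hlf).prod (bondLaw hlf)).real {p | (clu {x} p.1, clu {y} p.2) ∈ S}| ≤
      ((bondLaw hlf).prod (bondLaw hlf)).real
        {p | ¬ Disjoint (clu {x} p.1) (clu {y} p.2) ∧ clu {x} p.1 ≠ clu {y} p.2} := by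
  refine tv_le (clu_disc hx) (clu_disc hy) {q | ¬ Disjoint q.1 q.2 ∧ q.1 ≠ q.2} ?_ S
  intro K hK L hL hKL
  by_cases hd : Disjoint K L
  · -- disjoint values
    have h1 := le_joint (cgr_disc hx) (cgr_disc hy)
      {q | q.1.1 = K ∧ q.2.1 = L} (by
        rintro a ha b hb ⟨h1, h2⟩
        refine joint_ge ha hb ?_
        rw [h1, h2]
        exact hd)
    have e1 : {p : Cfg × Cfg | (cgr {x} p.1, cgr {y} p.2) ∈
        {q : (Set (ℤ × ℤ) × Set sqLattice.edgeSet) × (Set (ℤ × ℤ) × Set sqLattice.edgeSet) |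
          q.1.1 = K ∧ q.2.1 = L}} = {ω | clu {x} ω = K} ×ˢ {ω | clu {y} ω = L} := rfl
    rw [e1, Measure.prod_prod] at h1
    exact h1
  · have hEq : K = L := by
      by_contra hne
      exact hKL ⟨hd, hne⟩
    subst hEq
    by_cases hyK : y ∈ K
    · have h1 : {ω | clu {x} ω = K} ⊆ {ω | clu {x} ω = K ∧ clu {y} ω = K} := by
        intro ω hω
        have hω' : clu {x} ω = K := hω
        refine ⟨hω', ?_⟩
        rw [← hω']
        symm
        apply clu_single
        rw [Set.not_disjoint_iff]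
        refine ⟨y, ?_, sub_clu _ _ rfl⟩
        rw [hω']
        exact hyK
      calc (bondLaw hlf) {ω | clu {x} ω = K} * (bondLaw hlf) {ω | clu {y} ω = K}
          ≤ (bondLaw hlf) {ω | clu {x} ω = K} * 1 := by
            gcongr
            exact prob_le_one
        _ ≤ _ := by rw [mul_one]; exact measure_mono h1
    · have h1 : {ω | clu {y} ω = K} = ∅ := by
        ext ω
        simp only [mem_empty_iff_false, iff_false]
        intro hω
        have hω' : clu {y} ω = K := hω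
        apply hyK
        rw [← hω']
        exact sub_clu _ _ rfl
      rw [h1, measure_empty, mul_zero]
      exact zero_le

theorem exact_eq (x y : ℤ × ℤ) :
    |(bondLaw hlf).real {ω | ¬ Disjoint (clu {x} ω) (clu {y} ω) ∧ clu {x} ω ≠ clu {y} ω} -
      ((bondLaw hlf).prod (bondLaw hlf)).real
        {p | ¬ Disjoint (clu {x} p.1) (clu {y} p.2) ∧ clu {x} p.1 ≠ clu {y} p.2}| =
      ((bondLaw hlf).prod (bondLaw hlf)).real
        {p | ¬ Disjoint (clu {x} p.1) (clu {y} p.2) ∧ clu {x} p.1 ≠ clu {y} p.2} := by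
  have h1 : {ω : Cfg | ¬ Disjoint (clu {x} ω) (clu {y} ω) ∧ clu {x} ω ≠ clu {y} ω} = ∅ := by
    ext ω
    simp only [mem_empty_iff_false, iff_false]
    rintro ⟨h1, h2⟩
    exact h2 (clu_single h1)
  rw [h1, measureReal_empty, zero_sub, abs_neg, abs_of_nonneg measureReal_nonneg]

end Q292.CDep
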