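import Pool.Agent.Q292.CDep.Meet
import Pool.Agent.H974R2.Block

/-!
Two independent clusters meet: the events of the lower bound.
-/

set_option autoImplicit false

namespace Q292.CDep

open Finset H974 Pool.Agent.H160R2.CV MeasureTheory
open Pool.Agent.H160R2.CV.Quad Pool.Agent.H389R2.CD H362P

/-- the box around `x` is connected to a point `z` whose cluster meets all the paths (of any
configuration) which cross the annulus of radii `n`, `3n` around `y` -/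
def Good (x : Vtx) (r : ℕ) (y : Vtx) (n : ℕ) (F : Set Edg) : Prop :=
  ∃ z u : Vtx, nv (u - x) ≤ r ∧ Reach F u z ∧ ∀ (G : Set Edg) (u' v' : Vtx), nv (u' - y) ≤ n →
    3 * n ≤ nv (v' - y) → Reach G u' v' → ∃ w, Reach G u' w ∧ Reach F z w

theorem Good.mono {x : Vtx} {r : ℕ} {y : Vtx} {n : ℕ} {F G : Set Edg} (h : F ⊆ G)
    (hF : Good x r y n F) : Good x r y n G := by
  obtain ⟨z, u, h1, h2, h3⟩ := hF
  refine ⟨z, u, h1, h2.mono h, fun H u' v' k1 k2 k3 => ?_⟩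
  obtain ⟨w, w1, w2⟩ := h3 H u' v' k1 k2 k3
  exact ⟨w, w1, w2.mono h⟩

theorem Q1_incr (S : Finset Edg) (x : Vtx) (r n : ℕ) : IncrE S (fun F => Q1 x r n (↑F)) :=
  fun _ _ h _ hF => Q1.mono (by exact_mod_cast h) hF

theorem harris2 {S : Finset Edg} {A B : Finset Edg → Prop} (hA : IncrE S A) (hB : IncrE S B)
    {a b : ℝ} (ha : 0 ≤ a) (hb : 0 ≤ b) (h1 : a ≤ Pr P S A) (h2 : b ≤ Pr P S B) :
    a * b ≤ Pr P S (fun F => A F ∧ B F) ∧ IncrE S (fun F => A F ∧ B F) := by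
  refine ⟨(mul_le_mul h1 h2 hb (Pr_nonneg Quad.okP _ _)).trans (Pr_harris Quad.okP hA hB), ?_⟩
  exact fun F G h h' hF => ⟨hA F G h h' hF.1, hB F G h h' hF.2⟩

theorem pr_Good {x y : Vtx} {r n R : ℕ} (hR : nv (x - y) = R) (hn : 1 ≤ n) (hnR : n ≤ R)
    (hrR : r ≤ R) {S : Finset Edg} (hS : boxE (nv x + nv y + 8 * R) ⊆ S) :
    (1 / 2 : ℝ) ^ 188 * (1 / 2 : ℝ) ^ 188 * (barm (1 / 2) r (8 * R) * barm (1 / 2) n (8 * R)) ≤
      Pr P S (fun F => Good x r y n (↑F)) := by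
  have hR1 : 1 ≤ R := by omega
  have h1 : (1 / 2 : ℝ) ^ 188 ≤ Pr P S (CA x (2 * R) (3 * (2 * R))) :=
    pr_CA (by omega) (bo_sub.trans ((boxE_mono (by omega)).trans hS))
  have h2 : barm (1 / 2) r (8 * R) ≤ Pr P S (fun F => Q1 x r (8 * R) (↑F)) :=
    pr_Q1_ge (bo_sub.trans ((boxE_mono (by omega)).trans hS))
  have h3 : (1 / 2 : ℝ) ^ 188 ≤ Pr P S (CA y n (3 * n)) :=
    pr_CA (by omega) (bo_sub.trans ((boxE_mono (by omega)).trans hS))
  have h4 : barm (1 / 2) n (8 * R) ≤ Pr P S (fun F => Q1 y n (8 * R) (↑F)) :=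
    pr_Q1_ge (bo_sub.trans ((boxE_mono (by omega)).trans hS))
  have b2 : 0 ≤ barm (1 / 2) r (8 * R) := barm_nonneg (by norm_num) (by norm_num) _ _
  have b4 : 0 ≤ barm (1 / 2) n (8 * R) := barm_nonneg (by norm_num) (by norm_num) _ _
  obtain ⟨i1, j1⟩ := harris2 (CA_incr S x (2 * R) (3 * (2 * R))) (Q1_incr S x r (8 * R))
    (by positivity) b2 h1 h2
  obtain ⟨i2, j2⟩ := harris2 j1 (CA_incr S y n (3 * n)) (by positivity) (by positivity) i1 h3
  obtain ⟨i3, -⟩ := harris2 j2 (Q1_incr S y n (8 * R)) (by positivity) b4 i2 h4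
  refine le_trans (le_of_eq (by ring)) (i3.trans (Pr_mono Quad.okP ?_))
  rintro F _ ⟨⟨⟨k1, u, v, hu, hv, huv⟩, k3⟩, u', v', hu', hv', huv'⟩
  obtain ⟨z, hz⟩ := CA_meet (by omega) k1
  obtain ⟨z', hz'⟩ := CA_meet2 (by omega) k3
  have t1 := nv_tri u' y x
  have t2 := nv_tri v' x y
  have t3 := w_nv_comm x y
  have m1 := hz u v (by omega) (by omega) huv
  have m2 := hz u' v' (by omega) (by omega) huv'
  obtain ⟨w, w1, w2⟩ := hz' (↑F) u' v' hu' (by omega) huv'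
  refine ⟨z', u, hu, ((m1.trans m2.symm).trans w1).trans w2.symm, ?_⟩
  exact fun G a b ha hb hab => hz' G a b ha hb hab

theorem pr_Q2_ge {x y : Vtx} {r n R : ℕ} (hR : nv (x - y) = R) (hR1 : 1 ≤ R) (hnR : n ≤ R)
    (hrR : r ≤ R) {S : Finset Edg} (hS : boxE (nv x + nv y + 8 * R) ⊆ S) :
    (1 / 2 : ℝ) ^ 188 * (barm (1 / 2) r (8 * R) * barm (1 / 2) n (8 * R)) ≤
      Pr P S (fun F => Q2 x r y n (↑F)) := by
  have h1 : (1 / 2 : ℝ) ^ 188 ≤ Pr P S (CA x (2 * R) (3 * (2 * R))) :=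
    pr_CA (by omega) (bo_sub.trans ((boxE_mono (by omega)).trans hS))
  have h2 : barm (1 / 2) r (8 * R) ≤ Pr P S (fun F => Q1 x r (8 * R) (↑F)) :=
    pr_Q1_ge (bo_sub.trans ((boxE_mono (by omega)).trans hS))
  have h4 : barm (1 / 2) n (8 * R) ≤ Pr P S (fun F => Q1 y n (8 * R) (↑F)) :=
    pr_Q1_ge (bo_sub.trans ((boxE_mono (by omega)).trans hS))
  have b2 : 0 ≤ barm (1 / 2) r (8 * R) := barm_nonneg (by norm_num) (by norm_num) _ _
  have b4 : 0 ≤ barm (1 / 2) n (8 * R) := barm_nonneg (by norm_num) (by norm_num) _ _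
  obtain ⟨i1, j1⟩ := harris2 (CA_incr S x (2 * R) (3 * (2 * R))) (Q1_incr S x r (8 * R))
    (by positivity) b2 h1 h2
  obtain ⟨i3, -⟩ := harris2 j1 (Q1_incr S y n (8 * R)) (by positivity) b4 i1 h4
  refine le_trans (le_of_eq (by ring)) (i3.trans (Pr_mono Quad.okP ?_))
  rintro F _ ⟨⟨k1, u, v, hu, hv, huv⟩, u', v', hu', hv', huv'⟩
  obtain ⟨z, hz⟩ := CA_meet (by omega) k1
  have t1 := nv_tri u' y x
  have t2 := nv_tri v' x y
  have t3 := w_nv_comm x y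
  have m1 := hz u v (by omega) (by omega) huv
  have m2 := hz u' v' (by omega) (by omega) huv'
  exact ⟨u, u', hu, hu', m1.trans m2.symm⟩

/-! ### no crossing of an annulus -/

theorem blk_box {F : Finset Edg} {R1 R2 : ℤ} (h1 : 0 ≤ R1) (h2 : R1 < R2) {u v : Vtx}
    (hu : inR (-R1) R1 (-R1) R1 u)
    (h : Reach (↑F : Set Edg) u v) (hv : v.1 ≤ -R2 ∨ R2 ≤ v.1 ∨ v.2 ≤ -R2 ∨ R2 ≤ v.2) :
    ¬ Blk R1 R2 F := by
  unfold inR at hu
  obtain ⟨w, k1, k2, k3⟩ := first_exit (a := -R2) (b := R2) (c := -R2) (d := R2)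
    (by unfold inR; omega) h hv
  rintro ⟨hb1, hb2⟩
  rcases k2 with k2 | k2 | k2 | k2
  · apply hb1
    right
    obtain ⟨y1, y2, m1, m2, m3, -⟩ := sub_LR (a := -R2) (b := -R1) (c := -R2) (d := R2) (by omega)
      (by rintro x y ⟨-, h⟩ _ _; simp only [mem_coe, mem_RE_true] at h; omega)
      (by rintro x y ⟨-, h⟩ _ _; simp only [mem_coe, mem_RE_false] at h; omega)
      k3.symm k2.le (by omega)
    exact ⟨y1, y2, m1, m2, m3.mono (by rintro e ⟨⟨h4, -⟩, h5⟩; exact ⟨h4, h5⟩)⟩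
  · apply hb1
    left
    obtain ⟨y1, y2, m1, m2, m3, -⟩ := sub_LR (a := R1) (b := R2) (c := -R2) (d := R2) (by omega)
      (by rintro x y ⟨-, h⟩ _ _; simp only [mem_coe, mem_RE_true] at h; omega)
      (by rintro x y ⟨-, h⟩ _ _; simp only [mem_coe, mem_RE_false] at h; omega)
      k3 (by omega) k2.ge
    exact ⟨y1, y2, m1, m2, m3.mono (by rintro e ⟨⟨h4, -⟩, h5⟩; exact ⟨h4, h5⟩)⟩
  · apply hb2
    right
    obtain ⟨y1, y2, m1, m2, m3, -⟩ := sub_TB (a := -R2) (b := R2) (c := -R2) (d := -R1) (by omega)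
      (by rintro x y ⟨-, h⟩ _ _; simp only [mem_coe, mem_RE_false] at h; omega)
      (by rintro x y ⟨-, h⟩ _ _; simp only [mem_coe, mem_RE_true] at h; omega)
      k3.symm k2.le (by omega)
    exact ⟨y1, y2, m1, m2, m3.mono (by rintro e ⟨⟨h4, -⟩, h5⟩; exact ⟨h4, h5⟩)⟩
  · apply hb2
    left
    obtain ⟨y1, y2, m1, m2, m3, -⟩ := sub_TB (a := -R2) (b := R2) (c := R1) (d := R2) (by omega)
      (by rintro x y ⟨-, h⟩ _ _; simp only [mem_coe, mem_RE_false] at h; omega)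
      (by rintro x y ⟨-, h⟩ _ _; simp only [mem_coe, mem_RE_true] at h; omega)
      k3 (by omega) k2.ge
    exact ⟨y1, y2, m1, m2, m3.mono (by rintro e ⟨⟨h4, -⟩, h5⟩; exact ⟨h4, h5⟩)⟩

theorem barm_lt {s n m : ℕ} (hm : 5 ≤ m) (hs : s ≤ m) (hn : 3 * m ≤ n) :
    barm (1 / 2) s n ≤ 1 - (1 / 2 : ℝ) ^ 188 := by
  have h1 : (1 / 2 : ℝ) ^ 188 ≤ Pr P (boxE n) (Blk m (3 * m : ℕ)) :=
    pr_Blk hm (Finset.sdiff_subset.trans (boxE_mono hn))
  have h2 : barm (1 / 2) s n ≤ Pr P (boxE n) (fun F => ¬ Blk m (3 * m : ℕ) F) := by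
    unfold barm
    apply Pr_mono Quad.okP
    rintro F _ ⟨u, v, hu, hv, hr⟩
    have hs' : (s : ℤ) ≤ m := by exact_mod_cast hs
    have hn' : ((3 * m : ℕ) : ℤ) ≤ n := by exact_mod_cast hn
    have hm' : (5 : ℤ) ≤ m := by exact_mod_cast hm
    refine blk_box (by positivity) (by push_cast; omega) (u := u) (v := v) ?_
      (hr.mono Set.inter_subset_left) ?_
    · unfold inR at hu ⊢
      omega
    · unfold onB inR at hv
      omega
  rw [Pr_not] at h2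
  linarith

/-! ### measurability -/

theorem meas_Q1 (x : Vtx) (r n : ℕ) : MeasurableSet {ω : Cfg | Q1 x r n (opn ω)} := by
  have e : {ω : Cfg | Q1 x r n (opn ω)} =
      ⋃ m : ℕ, {ω | (fun F : Finset Edg => Q1 x r n (↑F)) (FF (boxE m) ω)} := by
    ext ω
    rw [Set.mem_iUnion]
    constructor
    · intro hω
      obtain ⟨m, hm⟩ := Q1_box hω
      refine ⟨m, ?_⟩
      show Q1 x r n (↑(FF (boxE m) ω))
      rw [FF_coe]
      exact hm
    · rintro ⟨m, hm⟩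
      have hm' : Q1 x r n (↑(FF (boxE m) ω)) := hm
      rw [FF_coe] at hm'
      exact hm'.mono Set.inter_subset_left
  rw [e]
  exact MeasurableSet.iUnion fun m =>
    meas_event (boxE m) (fun F : Finset Edg => Q1 x r n (↑F))

theorem meas_mem (A : Set (ℤ × ℤ)) (z : ℤ × ℤ) : MeasurableSet {ω : Cfg | z ∈ clu A ω} := by
  have e : {ω : Cfg | z ∈ clu A ω} = ⋃ u ∈ A, ⋃ m : ℕ,
      {ω | (fun F : Finset Edg => Reach (↑F) u z) (FF (boxE m) ω)} := by
    ext ω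
    rw [Set.mem_iUnion₂]
    constructor
    · rintro ⟨u, hu, hr⟩
      refine ⟨u, hu, ?_⟩
      rw [Set.mem_iUnion]
      obtain ⟨m, hm⟩ := InfAux.reach_box ((open_reach ω u z).mp hr)
      refine ⟨m, ?_⟩
      show Reach (↑(FF (boxE m) ω)) u z
      rw [FF_coe]
      exact hm
    · rintro ⟨u, hu, h⟩
      rw [Set.mem_iUnion] at h
      obtain ⟨m, hm⟩ := h
      have hm' : Reach (↑(FF (boxE m) ω)) u z := hm
      rw [FF_coe] at hm'
      exact ⟨u, hu, (open_reach ω u z).mpr (hm'.mono Set.inter_subset_left)⟩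
  rw [e]
  exact MeasurableSet.biUnion (Set.to_countable _) fun u _ =>
    MeasurableSet.iUnion fun m => meas_event (boxE m) (fun F : Finset Edg => Reach (↑F) u z)

/-- the event that the two clusters meet and the second one does not meet `A` -/
def EA (A B : Set (ℤ × ℤ)) : Set (Cfg × Cfg) :=
  {p | ¬ Disjoint (clu A p.1) (clu B p.2) ∧ Disjoint A (clu B p.2)}

theorem EA_meas (A B : Set (ℤ × ℤ)) : MeasurableSet (EA A B) := by
  have e : EA A B = (⋃ z : ℤ × ℤ, {ω | z ∈ clu A ω} ×ˢ {ω | z ∈ clu B ω}) ∩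
      ⋂ z ∈ A, {p : Cfg × Cfg | p.2 ∈ {ω | z ∈ clu B ω}ᶜ} := by
    ext p
    constructor
    · rintro ⟨h1, h2⟩
      obtain ⟨z, hz1, hz2⟩ := Set.not_disjoint_iff.mp h1
      refine ⟨Set.mem_iUnion.mpr ⟨z, hz1, hz2⟩, ?_⟩
      rw [Set.mem_iInter₂]
      intro z hz hz'
      exact Set.disjoint_left.mp h2 hz hz'
    · rintro ⟨h1, h2⟩
      obtain ⟨z, hz1, hz2⟩ := Set.mem_iUnion.mp h1
      refine ⟨Set.not_disjoint_iff.mpr ⟨z, hz1, hz2⟩, ?_⟩
      rw [Set.disjoint_left]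
      intro z hz hz'
      exact (Set.mem_iInter₂.mp h2 z hz) hz'
  rw [e]
  refine MeasurableSet.inter ?_ ?_
  · exact MeasurableSet.iUnion fun z => (meas_mem A z).prod (meas_mem B z)
  · exact MeasurableSet.biInter (Set.to_countable _) fun z _ =>
      measurable_snd (meas_mem B z).compl

end Q292.CDep
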