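import Pool.Agent.Q292.CDep.Base

/-!
Two independent clusters meet: upper bound.
-/

set_option autoImplicit false

namespace Q292.CDep

open Finset H974 Pool.Agent.H160R2.CV MeasureTheory
open Pool.Agent.H160R2.CV.Quad Pool.Agent.H389R2.CD H362P

/-- two independent clusters meet at a point which is not far from `y` -/
theorem side {C : ℝ} (hC : 1 ≤ C) (hb : ∀ r n : ℕ, 1 ≤ n →
    barm (1 / 2) r n ≤ C * (((r : ℝ) + 1) / n) ^ al) {x y : Vtx} {r s m K : ℕ} (hm1 : 1 ≤ m)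
    (hrm : r ≤ m) (hK : 2 ^ K * (s + 1) ≤ m) (hm : 2 * m + 1 ≤ nv (x - y)) :
    (μ.prod μ).real {p : Cfg × Cfg | ∃ z, z ∈ clu (Bx x r) p.1 ∧ z ∈ clu (Bx y s) p.2 ∧
      nv (z - y) ≤ 2 ^ K * (s + 1)} ≤
      ((K : ℝ) + 1) * (C ^ 3 * (4 * ((r : ℝ) + 1) * ((s : ℝ) + 1) / (m : ℝ) ^ 2) ^ al) := by
  have hm0 : (0 : ℝ) < m := by exact_mod_cast hm1
  have hC0 : 0 < C := by linarith
  set A : ℕ → Set Cfg := fun k => {ω | Q2 x r y (2 ^ k * (s + 1)) (opn ω)} with hA
  set B : ℕ → Set Cfg := fun k => if k = 0 then Set.univ else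
    {ω | Q1 y s (2 ^ (k - 1) * (s + 1)) (opn ω)} with hB
  have hcov : {p : Cfg × Cfg | ∃ z, z ∈ clu (Bx x r) p.1 ∧ z ∈ clu (Bx y s) p.2 ∧
      nv (z - y) ≤ 2 ^ K * (s + 1)} ⊆ ⋃ k ∈ Finset.range (K + 1), A k ×ˢ B k := by
    rintro ⟨ω, ω'⟩ ⟨z, hz1, hz2, hz3⟩
    have hex : ∃ k, nv (z - y) ≤ 2 ^ k * (s + 1) := ⟨K, hz3⟩
    classical
    set k := Nat.find hex with hk
    have hk1 : nv (z - y) ≤ 2 ^ k * (s + 1) := Nat.find_spec hex
    have hk2 : k ≤ K := Nat.find_min' hex hz3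
    rw [Set.mem_iUnion₂]
    refine ⟨k, Finset.mem_range.mpr (by omega), ?_, ?_⟩
    · obtain ⟨u, hu, hr⟩ := mem_clu.mp hz1
      exact ⟨u, z, hu, hk1, hr⟩
    · show ω' ∈ B k
      rw [hB]
      simp only
      split_ifs with h0
      · exact Set.mem_univ _
      · obtain ⟨u, hu, hr⟩ := mem_clu.mp hz2
        have h1 : ¬ nv (z - y) ≤ 2 ^ (k - 1) * (s + 1) := Nat.find_min hex (by omega)
        exact ⟨u, z, hu, by omega, hr⟩
  have hone : ∀ k ∈ Finset.range (K + 1), (μ.prod μ).real (A k ×ˢ B k) ≤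
      C ^ 3 * (4 * ((r : ℝ) + 1) * ((s : ℝ) + 1) / (m : ℝ) ^ 2) ^ al := by
    intro k hk
    have hkK : k ≤ K := by have := Finset.mem_range.mp hk; omega
    have hnk : 2 ^ k * (s + 1) ≤ m :=
      (Nat.mul_le_mul_right _ (Nat.pow_le_pow_right (by norm_num) hkK)).trans hK
    have h2k : (0 : ℝ) < 2 ^ k := by positivity
    have hs1 : (0 : ℝ) < (s : ℝ) + 1 := by positivity
    have hr1 : (0 : ℝ) < (r : ℝ) + 1 := by positivity
    rw [measureReal_prod_prod]
    have a1 : μ.real (A k) ≤ (C * (((r : ℝ) + 1) / m) ^ al) *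
        (C * ((2 * (2 ^ k * ((s : ℝ) + 1))) / m) ^ al) := by
      refine (P2_le hrm hnk hm).trans ?_
      apply mul_le_mul (hb r m hm1) _ (barm_nonneg (by norm_num) (by norm_num) _ _)
        (by positivity)
      refine (hb _ m hm1).trans ?_
      apply mul_le_mul_of_nonneg_left _ hC0.le
      apply Real.rpow_le_rpow (by positivity) _ (by norm_num)
      apply div_le_div_of_nonneg_right _ hm0.le
      push_cast
      have h1 : (1 : ℝ) ≤ 2 ^ k := one_le_pow₀ (by norm_num)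
      nlinarith
    have b1 : μ.real (B k) ≤ C * (2 / 2 ^ k : ℝ) ^ al := by
      rw [hB]
      simp only
      split_ifs with h0
      · rw [h0, pow_zero, div_one]
        have h1 : μ.real (Set.univ : Set Cfg) = 1 := by simp
        rw [h1]
        have h2 : (1 : ℝ) ≤ 2 ^ al := Real.one_le_rpow (by norm_num) (by norm_num)
        nlinarith
      · have hsn : s ≤ 2 ^ (k - 1) * (s + 1) := by
          have : 1 ≤ 2 ^ (k - 1) := Nat.one_le_two_pow
          nlinarith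
        have hpos : 1 ≤ 2 ^ (k - 1) * (s + 1) := by
          have : 1 ≤ 2 ^ (k - 1) := Nat.one_le_two_pow
          nlinarith
        refine (P1_le y hsn).trans ((hb s _ hpos).trans ?_)
        apply mul_le_mul_of_nonneg_left _ hC0.le
        apply Real.rpow_le_rpow (by positivity) _ (by norm_num)
        have e1 : (2 : ℝ) ^ k = 2 * 2 ^ (k - 1) := by
          rw [← pow_succ']
          congr 1
          omega
        rw [e1]
        push_cast
        have h3 : (0 : ℝ) < 2 ^ (k - 1) := by positivity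
        rw [div_le_div_iff₀ (by positivity) (by positivity)]
        nlinarith
    refine (mul_le_mul a1 b1 measureReal_nonneg (by positivity)).trans (le_of_eq ?_)
    have e2 : (4 * ((r : ℝ) + 1) * ((s : ℝ) + 1) / (m : ℝ) ^ 2) =
        (((r : ℝ) + 1) / m) * ((2 * (2 ^ k * ((s : ℝ) + 1))) / m) * (2 / 2 ^ k) := by
      field_simp
      ring
    rw [e2, Real.mul_rpow (by positivity) (by positivity),
      Real.mul_rpow (by positivity) (by positivity)]
    ring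
  calc (μ.prod μ).real {p : Cfg × Cfg | ∃ z, z ∈ clu (Bx x r) p.1 ∧ z ∈ clu (Bx y s) p.2 ∧
      nv (z - y) ≤ 2 ^ K * (s + 1)}
      ≤ (μ.prod μ).real (⋃ k ∈ Finset.range (K + 1), A k ×ˢ B k) :=
        measureReal_mono hcov (measure_ne_top _ _)
    _ ≤ ∑ k ∈ Finset.range (K + 1), (μ.prod μ).real (A k ×ˢ B k) :=
        measureReal_biUnion_finset_le _ _
    _ ≤ ∑ _k ∈ Finset.range (K + 1),
          C ^ 3 * (4 * ((r : ℝ) + 1) * ((s : ℝ) + 1) / (m : ℝ) ^ 2) ^ al :=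
        Finset.sum_le_sum hone
    _ = _ := by
        rw [Finset.sum_const, Finset.card_range, nsmul_eq_mul]
        push_cast
        ring

theorem swap_real (T : Set (Cfg × Cfg)) :
    (μ.prod μ).real {p | (p.2, p.1) ∈ T} = (μ.prod μ).real T := by
  have h1 : (μ.prod μ).map (MeasurableEquiv.prodComm : Cfg × Cfg ≃ᵐ Cfg × Cfg) = μ.prod μ := by
    have := Measure.prod_swap (μ := μ) (ν := μ)
    exact this
  rw [measureReal_def, measureReal_def]
  congr 1
  conv_rhs => rw [← h1]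
  rw [MeasurableEquiv.map_apply]
  rfl

/-- **Upper bound.** -/
theorem meet_upper : ∃ C : ℝ, 0 < C ∧ ∀ (x y : ℤ × ℤ) (r s R : ℕ), nv (x - y) = R →
    20 * (r + 1) ≤ R → 20 * (s + 1) ≤ R →
    (μ.prod μ).real {p | ¬ Disjoint (clu (Bx x r) p.1) (clu (Bx y s) p.2)} ≤
      C * (((r : ℝ) + 1) * ((s : ℝ) + 1) / (R : ℝ) ^ 2) ^ al *
        Real.log ((R : ℝ) ^ 2 / (((r : ℝ) + 1) * ((s : ℝ) + 1))) := by
  obtain ⟨C, hC, hb⟩ := barm_up
  refine ⟨C ^ 3 * 64 * 7, by positivity, ?_⟩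
  intro x y r s R hR hr hs
  have hC0 : 0 < C := by linarith
  set m := (R - 1) / 2 with hm
  have hm1 : 1 ≤ m := by omega
  have hm2 : 2 * m + 1 ≤ nv (x - y) := by omega
  have hm2' : 2 * m + 1 ≤ nv (y - x) := by rw [w_nv_comm]; exact hm2
  have hm4 : R ≤ 4 * m := by omega
  have hm0 : (0 : ℝ) < m := by exact_mod_cast hm1
  have hR0 : (0 : ℝ) < R := by
    have : 0 < R := by omega
    exact_mod_cast this
  have hR4 : (R : ℝ) ≤ 4 * m := by exact_mod_cast hm4
  have hmR : (m : ℝ) ≤ R := by exact_mod_cast (by omega : m ≤ R)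
  have hr1 : (0 : ℝ) < (r : ℝ) + 1 := by positivity
  have hs1 : (0 : ℝ) < (s : ℝ) + 1 := by positivity
  set u : ℝ := ((r : ℝ) + 1) * ((s : ℝ) + 1) / (R : ℝ) ^ 2 with hu
  have hu0 : 0 < u := by positivity
  have hup : 0 < u ^ al := Real.rpow_pos_of_pos hu0 _
  -- the comparison of the bases
  have hcomp : ∀ t : ℝ, 0 < t → t ≤ 64 * u → t ^ al ≤ 64 * u ^ al := by
    intro t ht h
    calc t ^ al ≤ (64 * u) ^ al := Real.rpow_le_rpow ht.le h (by norm_num)
      _ = 64 ^ al * u ^ al := Real.mul_rpow (by norm_num) hu0.le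
      _ ≤ 64 * u ^ al := mul_le_mul_of_nonneg_right (al_le_one (by norm_num)) hup.le
  have hm16 : (R : ℝ) ^ 2 ≤ 16 * (m : ℝ) ^ 2 := by nlinarith
  have hbase : 4 * ((r : ℝ) + 1) * ((s : ℝ) + 1) / (m : ℝ) ^ 2 ≤ 64 * u := by
    rw [hu, ← mul_div_assoc, div_le_div_iff₀ (by positivity) (by positivity)]
    have hrs : 0 < ((r : ℝ) + 1) * ((s : ℝ) + 1) := by positivity
    nlinarith
  -- the numbers of scales
  have hlog : ∀ a : ℕ, 20 * (a + 1) ≤ R → ∃ K : ℕ, 2 ^ K * (a + 1) ≤ m ∧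
      m < 2 ^ (K + 1) * (a + 1) ∧ (K : ℝ) + 1 ≤ 3 * Real.log ((R : ℝ) / ((a : ℝ) + 1)) ∧
        1 ≤ Real.log ((R : ℝ) / ((a : ℝ) + 1)) := by
    intro a ha
    have hq : 1 ≤ m / (a + 1) := by
      rw [Nat.one_le_div_iff (by omega)]
      omega
    refine ⟨Nat.log 2 (m / (a + 1)), ?_, ?_, ?_⟩
    · have h1 := Nat.pow_log_le_self 2 (x := m / (a + 1)) (by omega)
      calc 2 ^ Nat.log 2 (m / (a + 1)) * (a + 1) ≤ m / (a + 1) * (a + 1) :=
            Nat.mul_le_mul_right _ h1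
        _ ≤ m := Nat.div_mul_le_self _ _
    · have h1 := Nat.lt_pow_succ_log_self (b := 2) (by norm_num) (m / (a + 1))
      rw [Nat.div_lt_iff_lt_mul (by omega)] at h1
      exact h1
    · set K := Nat.log 2 (m / (a + 1)) with hK
      have h1 := Nat.pow_log_le_self 2 (x := m / (a + 1)) (by omega)
      have h2 : 2 ^ K * (a + 1) ≤ R := by
        calc 2 ^ K * (a + 1) ≤ m / (a + 1) * (a + 1) := Nat.mul_le_mul_right _ h1
          _ ≤ m := Nat.div_mul_le_self _ _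
          _ ≤ R := by omega
      have ha0 : (0 : ℝ) < (a : ℝ) + 1 := by positivity
      have h3 : (2 : ℝ) ^ K ≤ (R : ℝ) / ((a : ℝ) + 1) := by
        rw [le_div_iff₀ ha0]
        exact_mod_cast h2
      have h4 : (K : ℝ) * Real.log 2 ≤ Real.log ((R : ℝ) / ((a : ℝ) + 1)) := by
        rw [← Real.log_pow]
        exact Real.log_le_log (by positivity) h3
      have h5 : (20 : ℝ) ≤ (R : ℝ) / ((a : ℝ) + 1) := by
        rw [le_div_iff₀ ha0]
        exact_mod_cast ha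
      have h6 : (1 : ℝ) ≤ Real.log ((R : ℝ) / ((a : ℝ) + 1)) := by
        rw [Real.le_log_iff_exp_le (by linarith)]
        have := Real.exp_one_lt_d9
        linarith
      have h7 := Real.log_two_gt_d9
      refine ⟨?_, h6⟩
      have hK0 : (0 : ℝ) ≤ K := Nat.cast_nonneg _
      nlinarith
  obtain ⟨K, k1, k2, k3, k4⟩ := hlog s hs
  obtain ⟨L, l1, l2, l3, l4⟩ := hlog r hr
  have n1 := side hC hb (x := x) (y := y) (r := r) (s := s) hm1 (by omega) k1 hm2
  have n2 := side hC hb (x := y) (y := x) (r := s) (s := r) hm1 (by omega) l1 hm2'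
  rw [← swap_real] at n2
  have e0 : 4 * ((s : ℝ) + 1) * ((r : ℝ) + 1) / (m : ℝ) ^ 2 =
      4 * ((r : ℝ) + 1) * ((s : ℝ) + 1) / (m : ℝ) ^ 2 := by ring
  rw [e0] at n2
  -- both far
  set h := m / 2 + 1 with hh
  have hh0 : (0 : ℝ) < h := by
    have : 0 < h := by omega
    exact_mod_cast this
  have hh8 : (R : ℝ) ≤ 8 * h := by exact_mod_cast (by omega : R ≤ 8 * h)
  have n3 : (μ.prod μ).real ({ω | Q1 x r h (opn ω)} ×ˢ {ω | Q1 y s h (opn ω)}) ≤
      C ^ 3 * (64 * u ^ al) := by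
    rw [measureReal_prod_prod]
    have a1 := (P1_le x (r := r) (n := h) (by omega)).trans (hb r h (by omega))
    have a2 := (P1_le y (r := s) (n := h) (by omega)).trans (hb s h (by omega))
    refine (mul_le_mul a1 a2 measureReal_nonneg (by positivity)).trans ?_
    have e1 : C * (((r : ℝ) + 1) / h) ^ al * (C * (((s : ℝ) + 1) / h) ^ al) =
        C ^ 2 * ((((r : ℝ) + 1) / h) * (((s : ℝ) + 1) / h)) ^ al := by
      rw [Real.mul_rpow (by positivity) (by positivity)]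
      ring
    rw [e1]
    have h1 : ((((r : ℝ) + 1) / h) * (((s : ℝ) + 1) / h)) ≤ 64 * u := by
      rw [hu, div_mul_div_comm, ← mul_div_assoc, div_le_div_iff₀ (by positivity) (by positivity)]
      have hrs : 0 < ((r : ℝ) + 1) * ((s : ℝ) + 1) := by positivity
      have hR64 : (R : ℝ) ^ 2 ≤ 64 * ((h : ℝ) * h) := by nlinarith
      nlinarith
    have h2 := hcomp _ (by positivity) h1
    have h3 : C ^ 2 ≤ C ^ 3 := pow_le_pow_right₀ hC (by norm_num)
    calc C ^ 2 * ((((r : ℝ) + 1) / h) * (((s : ℝ) + 1) / h)) ^ al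
        ≤ C ^ 2 * (64 * u ^ al) := mul_le_mul_of_nonneg_left h2 (by positivity)
      _ ≤ C ^ 3 * (64 * u ^ al) := mul_le_mul_of_nonneg_right h3 (by positivity)
  -- the union bound
  have hcov : {p : Cfg × Cfg | ¬ Disjoint (clu (Bx x r) p.1) (clu (Bx y s) p.2)} ⊆
      ({p : Cfg × Cfg | ∃ z, z ∈ clu (Bx x r) p.1 ∧ z ∈ clu (Bx y s) p.2 ∧
        nv (z - y) ≤ 2 ^ K * (s + 1)} ∪
      {p : Cfg × Cfg | (p.2, p.1) ∈ {p : Cfg × Cfg | ∃ z, z ∈ clu (Bx y s) p.1 ∧
        z ∈ clu (Bx x r) p.2 ∧ nv (z - x) ≤ 2 ^ L * (r + 1)}}) ∪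
      ({ω | Q1 x r h (opn ω)} ×ˢ {ω | Q1 y s h (opn ω)}) := by
    intro p hp
    obtain ⟨z, hz1, hz2⟩ := Set.not_disjoint_iff.mp hp
    by_cases c1 : nv (z - y) ≤ 2 ^ K * (s + 1)
    · exact Or.inl (Or.inl ⟨z, hz1, hz2, c1⟩)
    · by_cases c2 : nv (z - x) ≤ 2 ^ L * (r + 1)
      · exact Or.inl (Or.inr ⟨z, hz2, hz1, c2⟩)
      · right
        obtain ⟨v, hv, hv'⟩ := mem_clu.mp hz1
        obtain ⟨w, hw, hw'⟩ := mem_clu.mp hz2
        rw [pow_succ] at k2 l2
        refine ⟨⟨v, z, hv, ?_, hv'⟩, ⟨w, z, hw, ?_, hw'⟩⟩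
        · have : 2 ^ L * 2 * (r + 1) = 2 * (2 ^ L * (r + 1)) := by ring
          omega
        · have : 2 ^ K * 2 * (s + 1) = 2 * (2 ^ K * (s + 1)) := by ring
          omega
  have hfin := (measureReal_mono (μ := μ.prod μ) hcov).trans ((measureReal_union_le _ _).trans
    (add_le_add_left (measureReal_union_le _ _) _))
  have hG : (4 * ((r : ℝ) + 1) * ((s : ℝ) + 1) / (m : ℝ) ^ 2) ^ al ≤ 64 * u ^ al :=
    hcomp _ (by positivity) hbase
  have hlg : Real.log ((R : ℝ) ^ 2 / (((r : ℝ) + 1) * ((s : ℝ) + 1))) =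
      Real.log ((R : ℝ) / ((s : ℝ) + 1)) + Real.log ((R : ℝ) / ((r : ℝ) + 1)) := by
    rw [← Real.log_mul (by positivity) (by positivity)]
    congr 1
    field_simp
  rw [hlg]
  set a := Real.log ((R : ℝ) / ((s : ℝ) + 1)) with ha
  set b := Real.log ((R : ℝ) / ((r : ℝ) + 1)) with hbb
  have hCp : 0 < C ^ 3 := by positivity
  have m1 := n1.trans (mul_le_mul k3 (mul_le_mul_of_nonneg_left hG hCp.le) (by positivity)
    (by positivity))
  have m2 := n2.trans (mul_le_mul l3 (mul_le_mul_of_nonneg_left hG hCp.le) (by positivity)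
    (by positivity))
  refine hfin.trans ((add_le_add (add_le_add m1 m2) n3).trans ?_)
  have hX : 0 < C ^ 3 * (64 * u ^ al) := by positivity
  have e9 : C ^ 3 * 64 * 7 * u ^ al * (a + b) = (7 * (a + b)) * (C ^ 3 * (64 * u ^ al)) := by ring
  rw [e9]
  nlinarith

end Q292.CDep
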