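import Pool.Agent.Q292.CDep.Low
import Pool.Agent.Q292.CDep.Upper

/-!
Two independent clusters meet: lower bound.
-/

set_option autoImplicit false

namespace Q292.CDep

open Finset H974 Pool.Agent.H160R2.CV MeasureTheory
open Pool.Agent.H160R2.CV.Quad Pool.Agent.H389R2.CD H362P

theorem al_ge {t : ℝ} (h0 : 0 < t) (h1 : t ≤ 1) : t ≤ t ^ al := by
  have := Real.rpow_le_rpow_of_exponent_ge (x := t) (y := 1) (z := al) h0 h1 (by norm_num)
  rwa [Real.rpow_one] at this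

/-- the finite set of edges -/
noncomputable def SS (x y : Vtx) (R : ℕ) : Finset Edg := boxE (nv x + nv y + 8 * R)

/-- the event at scale `n` for the first configuration -/
def AA (x : Vtx) (r : ℕ) (y : Vtx) (R n : ℕ) : Set Cfg :=
  {ω | (fun F : Finset Edg => Good x r y n (↑F)) (FF (SS x y R) ω)}

theorem AA_meas (x : Vtx) (r : ℕ) (y : Vtx) (R n : ℕ) : MeasurableSet (AA x r y R n) :=
  meas_event (SS x y R) (fun F : Finset Edg => Good x r y n (↑F))

theorem AA_good {x : Vtx} {r : ℕ} {y : Vtx} {R n : ℕ} {ω : Cfg} (h : ω ∈ AA x r y R n) :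
    Good x r y n (opn ω) := by
  have h' : Good x r y n (↑(FF (SS x y R) ω)) := h
  rw [FF_coe] at h'
  exact h'.mono Set.inter_subset_left

theorem AA_law (x : Vtx) (r : ℕ) (y : Vtx) (R n : ℕ) :
    μ.real (AA x r y R n) = Pr P (SS x y R) (fun F => Good x r y n (↑F)) :=
  law_event hlf (SS x y R) (fun F => Good x r y n (↑F))

/-- the event between the scales `n` and `n'` for the second configuration -/
def BB (y : Vtx) (s n n' : ℕ) : Set Cfg :=
  {ω | Q1 y s (3 * n) (opn ω)} \ {ω | Q1 y s (3 * n') (opn ω)}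

theorem BB_meas (y : Vtx) (s n n' : ℕ) : MeasurableSet (BB y s n n') :=
  (meas_Q1 _ _ _).diff (meas_Q1 _ _ _)

theorem BB_law {y : Vtx} {s n n' : ℕ} (h : n ≤ n') (hs : s ≤ 3 * n') :
    barm (1 / 2) s (3 * n) - barm (1 / 2) s (3 * n') ≤ μ.real (BB y s n n') := by
  have h1 : {ω : Cfg | Q1 y s (3 * n') (opn ω)} ⊆ {ω | Q1 y s (3 * n) (opn ω)} := by
    rintro ω ⟨u, v, h1, h2, h3⟩
    exact ⟨u, v, h1, by omega, h3⟩
  unfold BB
  rw [measureReal_sdiff h1 (meas_Q1 _ _ _)]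
  have h2 := P1_ge y s (3 * n)
  have h3 := P1_le y hs
  linarith

theorem prod_sub {x y : Vtx} {r s R n n' : ℕ} (hR : nv (x - y) = R) (hsn : s ≤ n)
    (hn' : 3 * n' + r ≤ R) :
    AA x r y R n ×ˢ BB y s n n' ⊆ EA (Bx x r) (Bx y s) := by
  rintro ⟨ω, ω'⟩ ⟨h1, ⟨h2, h3⟩⟩
  obtain ⟨z, u, hu, huz, hz⟩ := AA_good h1
  obtain ⟨u', v', hu', hv', hr'⟩ := h2
  obtain ⟨w, w1, w2⟩ := hz (opn ω') u' v' (by omega) hv' hr'
  constructor
  · rw [Set.not_disjoint_iff]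
    exact ⟨w, mem_clu.mpr ⟨u, hu, huz.trans w2⟩, mem_clu.mpr ⟨u', hu', w1⟩⟩
  · rw [Set.disjoint_left]
    intro v hv hv2
    obtain ⟨q, hq, hqv⟩ := mem_clu.mp hv2
    apply h3
    have hv1 : nv (v - x) ≤ r := hv
    have t1 := nv_tri x v y
    have t2 := w_nv_comm x v
    exact ⟨q, v, hq, by omega, hqv⟩

theorem one_scale {c C : ℝ} {M : ℕ} (hc : 0 < c) (hlo : ∀ r n : ℕ, 1 ≤ n → r ≤ n →
    c * (((r : ℝ) + 1) / n) ^ al ≤ barm (1 / 2) r n)
    (hC : 1 ≤ C) (hb : ∀ r n : ℕ, 1 ≤ n → barm (1 / 2) r n ≤ C * (((r : ℝ) + 1) / n) ^ al)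
    (hM : 2 ≤ M) (hMC : C * (1 / (M : ℝ)) ^ al ≤ c / 2) {x y : ℤ × ℤ} {r s R k : ℕ}
    (hR : nv (x - y) = R) (hr : 20 * (r + 1) ≤ R) (hk : 4 * (M ^ (k + 1) * (s + 1)) ≤ R) :
    (1 / 2 : ℝ) ^ 188 * (1 / 2 : ℝ) ^ 188 * (c ^ 3 / 384) *
      (((r : ℝ) + 1) * ((s : ℝ) + 1) / (R : ℝ) ^ 2) ^ al ≤
      (μ.prod μ).real (AA x r y R (M ^ k * (s + 1)) ×ˢ
        BB y s (M ^ k * (s + 1)) (M ^ (k + 1) * (s + 1))) := by
  set n := M ^ k * (s + 1) with hn
  set n' := M ^ (k + 1) * (s + 1) with hn'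
  have hMk : 1 ≤ M ^ k := Nat.one_le_pow _ _ (by omega)
  have hnn' : n' = M * n := by rw [hn', hn, pow_succ]; ring
  have hn1 : s + 1 ≤ n := by rw [hn]; nlinarith
  have hnle : n ≤ n' := by rw [hnn']; nlinarith
  have hR1 : 1 ≤ R := by omega
  have hR0 : (0 : ℝ) < R := by exact_mod_cast hR1
  have hM0 : (0 : ℝ) < M := by
    have : 0 < M := by omega
    exact_mod_cast this
  have hMk0 : (0 : ℝ) < (M : ℝ) ^ k := by positivity
  have hr1 : (0 : ℝ) < (r : ℝ) + 1 := by positivity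
  have hs1 : (0 : ℝ) < (s : ℝ) + 1 := by positivity
  have hnR : (n : ℝ) = (M : ℝ) ^ k * ((s : ℝ) + 1) := by rw [hn]; push_cast; ring
  have hn'R : (n' : ℝ) = (M : ℝ) * ((M : ℝ) ^ k * ((s : ℝ) + 1)) := by
    rw [hnn', Nat.cast_mul, hnR]
  rw [measureReal_prod_prod]
  set K0 : ℝ := (1 / 2 : ℝ) ^ 188 * (1 / 2 : ℝ) ^ 188 with hK0
  have hK00 : 0 < K0 := by positivity
  -- the first factor
  have a1 : K0 * (c ^ 2 * ((((r : ℝ) + 1) / (8 * R)) * (n / (8 * R))) ^ al) ≤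
      μ.real (AA x r y R n) := by
    rw [AA_law]
    refine le_trans ?_ (pr_Good hR (by omega) (by omega) (by omega) (Finset.Subset.refl _))
    apply mul_le_mul_of_nonneg_left _ hK00.le
    have b1 := hlo r (8 * R) (by omega) (by omega)
    have b2 := hlo n (8 * R) (by omega) (by omega)
    have b3 : c * ((n : ℝ) / (8 * R)) ^ al ≤ barm (1 / 2) n (8 * R) := by
      refine le_trans ?_ b2
      apply mul_le_mul_of_nonneg_left _ hc.le
      apply Real.rpow_le_rpow (by positivity) _ (by norm_num)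
      push_cast
      apply div_le_div_of_nonneg_right _ (by positivity)
      linarith
    have b4 : c * ((((r : ℝ) + 1) / (8 * R))) ^ al ≤ barm (1 / 2) r (8 * R) := by
      refine le_trans (le_of_eq ?_) b1
      push_cast
      ring
    refine le_trans (le_of_eq ?_) (mul_le_mul b4 b3 (by positivity)
      (barm_nonneg (by norm_num) (by norm_num) _ _))
    rw [Real.mul_rpow (by positivity) (by positivity)]
    ring
  -- the second factor
  have a2 : c / 2 * (1 / (3 * (M : ℝ) ^ k)) ^ al ≤ μ.real (BB y s n n') := by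
    refine le_trans ?_ (BB_law hnle (by omega))
    have b1 := hlo s (3 * n) (by omega) (by omega)
    have b2 := hb s (3 * n') (by omega)
    have e1 : ((s : ℝ) + 1) / ((3 * n : ℕ) : ℝ) = 1 / (3 * (M : ℝ) ^ k) := by
      push_cast
      rw [hnR]
      field_simp
    have e2 : ((s : ℝ) + 1) / ((3 * n' : ℕ) : ℝ) = (1 / (3 * (M : ℝ) ^ k)) * (1 / M) := by
      push_cast
      rw [hn'R]
      field_simp
    rw [e1] at b1
    rw [e2, Real.mul_rpow (by positivity) (by positivity)] at b2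
    have hp : 0 < (1 / (3 * (M : ℝ) ^ k)) ^ al := Real.rpow_pos_of_pos (by positivity) _
    have b3 : C * ((1 / (3 * (M : ℝ) ^ k)) ^ al * (1 / (M : ℝ)) ^ al) ≤
        c / 2 * (1 / (3 * (M : ℝ) ^ k)) ^ al := by
      calc C * ((1 / (3 * (M : ℝ) ^ k)) ^ al * (1 / (M : ℝ)) ^ al)
          = (C * (1 / (M : ℝ)) ^ al) * (1 / (3 * (M : ℝ) ^ k)) ^ al := by ring
        _ ≤ _ := mul_le_mul_of_nonneg_right hMC hp.le
    linarith
  refine le_trans ?_ (mul_le_mul a1 a2 (by positivity) measureReal_nonneg)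
  have e3 : ((((r : ℝ) + 1) / (8 * R)) * (n / (8 * R))) * (1 / (3 * (M : ℝ) ^ k)) =
      (1 / 192) * (((r : ℝ) + 1) * ((s : ℝ) + 1) / (R : ℝ) ^ 2) := by
    rw [hnR]
    field_simp
    ring
  have e4 : K0 * (c ^ 2 * ((((r : ℝ) + 1) / (8 * R)) * (n / (8 * R))) ^ al) *
      (c / 2 * (1 / (3 * (M : ℝ) ^ k)) ^ al) = K0 * (c ^ 3 / 2) *
        (((((r : ℝ) + 1) / (8 * R)) * (n / (8 * R))) * (1 / (3 * (M : ℝ) ^ k))) ^ al := by
    rw [Real.mul_rpow (x := ((((r : ℝ) + 1) / (8 * R)) * (n / (8 * R)))) (by positivity)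
      (by positivity)]
    ring
  rw [e4, e3, Real.mul_rpow (by norm_num) (by positivity)]
  have h192 : (1 / 192 : ℝ) ≤ (1 / 192 : ℝ) ^ al := al_ge (by norm_num) (by norm_num)
  set U : ℝ := (((r : ℝ) + 1) * ((s : ℝ) + 1) / (R : ℝ) ^ 2) ^ al with hU
  have hU0 : 0 < U := Real.rpow_pos_of_pos (by positivity) _
  calc K0 * (c ^ 3 / 384) * U = K0 * (c ^ 3 / 2) * ((1 / 192) * U) := by ring
    _ ≤ K0 * (c ^ 3 / 2) * ((1 / 192) ^ al * U) := by
        apply mul_le_mul_of_nonneg_left _ (by positivity)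
        exact mul_le_mul_of_nonneg_right h192 hU0.le

theorem base_scale {c : ℝ} (hc : 0 < c) (hlo : ∀ r n : ℕ, 1 ≤ n → r ≤ n →
    c * (((r : ℝ) + 1) / n) ^ al ≤ barm (1 / 2) r n) {x y : ℤ × ℤ} {r s R : ℕ}
    (hR : nv (x - y) = R) (hr : 20 * (r + 1) ≤ R) (hs : 20 * (s + 1) ≤ R) :
    (1 / 2 : ℝ) ^ 188 * (1 / 2 : ℝ) ^ 188 * (c ^ 2 / 64) *
      (((r : ℝ) + 1) * ((s : ℝ) + 1) / (R : ℝ) ^ 2) ^ al ≤
      (μ.prod μ).real (EA (Bx x r) (Bx y s)) := by
  have hR0 : (0 : ℝ) < R := by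
    have : 0 < R := by omega
    exact_mod_cast this
  have hr1 : (0 : ℝ) < (r : ℝ) + 1 := by positivity
  have hs1 : (0 : ℝ) < (s : ℝ) + 1 := by positivity
  have hsub : {ω : Cfg | Q2 x r y s (opn ω)} ×ˢ {ω : Cfg | Q1 y s (R - r) (opn ω)}ᶜ ⊆
      EA (Bx x r) (Bx y s) := by
    rintro ⟨ω, ω'⟩ ⟨⟨u, v, hu, hv, huv⟩, h2⟩
    constructor
    · rw [Set.not_disjoint_iff]
      exact ⟨v, mem_clu.mpr ⟨u, hu, huv⟩, mem_clu.mpr ⟨v, hv, Reach.refl _ _⟩⟩
    · rw [Set.disjoint_left]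
      intro v hv hv2
      obtain ⟨q, hq, hqv⟩ := mem_clu.mp hv2
      apply h2
      have hv1 : nv (v - x) ≤ r := hv
      have t1 := nv_tri x v y
      have t2 := w_nv_comm x v
      exact ⟨q, v, hq, by omega, hqv⟩
  refine le_trans ?_ (measureReal_mono hsub)
  rw [measureReal_prod_prod]
  have a2 : (1 / 2 : ℝ) ^ 188 ≤ μ.real {ω : Cfg | Q1 y s (R - r) (opn ω)}ᶜ := by
    rw [probReal_compl_eq_one_sub (meas_Q1 _ _ _)]
    have h1 := P1_le y (r := s) (n := R - r) (by omega)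
    have h2 := barm_lt (s := s) (n := R - r) (m := R / 4) (by omega) (by omega) (by omega)
    linarith
  have a1 : (1 / 2 : ℝ) ^ 188 * (c ^ 2 * ((1 / 64) *
      (((r : ℝ) + 1) * ((s : ℝ) + 1) / (R : ℝ) ^ 2)) ^ al) ≤
      μ.real {ω : Cfg | Q2 x r y s (opn ω)} := by
    have h0 := InfAux.lower (Q2 x r y s) (fun _ _ h hF => hF.mono h) (nv x + nv y + 8 * R)
    refine le_trans ?_ h0
    refine le_trans ?_ (pr_Q2_ge hR (by omega) (by omega) (by omega) (Finset.Subset.refl _))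
    apply mul_le_mul_of_nonneg_left _ (by positivity)
    have b1 := hlo r (8 * R) (by omega) (by omega)
    have b2 := hlo s (8 * R) (by omega) (by omega)
    refine le_trans (le_of_eq ?_) (mul_le_mul b1 b2 (by positivity)
      (barm_nonneg (by norm_num) (by norm_num) _ _))
    have e1 : (1 / 64) * (((r : ℝ) + 1) * ((s : ℝ) + 1) / (R : ℝ) ^ 2) =
        (((r : ℝ) + 1) / ((8 * R : ℕ) : ℝ)) * (((s : ℝ) + 1) / ((8 * R : ℕ) : ℝ)) := by
      push_cast
      field_simp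
      ring
    rw [e1, Real.mul_rpow (by positivity) (by positivity)]
    ring
  refine le_trans ?_ (mul_le_mul a1 a2 (by positivity) measureReal_nonneg)
  rw [Real.mul_rpow (by norm_num) (by positivity)]
  have h64 : (1 / 64 : ℝ) ≤ (1 / 64 : ℝ) ^ al := al_ge (by norm_num) (by norm_num)
  set U : ℝ := (((r : ℝ) + 1) * ((s : ℝ) + 1) / (R : ℝ) ^ 2) ^ al with hU
  have hU0 : 0 < U := Real.rpow_pos_of_pos (by positivity) _
  calc (1 / 2 : ℝ) ^ 188 * (1 / 2 : ℝ) ^ 188 * (c ^ 2 / 64) * U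
      = (1 / 2 : ℝ) ^ 188 * (1 / 2 : ℝ) ^ 188 * c ^ 2 * ((1 / 64) * U) := by ring
    _ ≤ (1 / 2 : ℝ) ^ 188 * (1 / 2 : ℝ) ^ 188 * c ^ 2 * ((1 / 64) ^ al * U) := by
        apply mul_le_mul_of_nonneg_left _ (by positivity)
        exact mul_le_mul_of_nonneg_right h64 hU0.le
    _ = _ := by ring

/-- all the scales -/
theorem all_scales {c C : ℝ} {M : ℕ} (hc : 0 < c) (hlo : ∀ r n : ℕ, 1 ≤ n → r ≤ n →
    c * (((r : ℝ) + 1) / n) ^ al ≤ barm (1 / 2) r n)
    (hC : 1 ≤ C) (hb : ∀ r n : ℕ, 1 ≤ n → barm (1 / 2) r n ≤ C * (((r : ℝ) + 1) / n) ^ al)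
    (hM : 2 ≤ M) (hMC : C * (1 / (M : ℝ)) ^ al ≤ c / 2) {x y : ℤ × ℤ} {r s R N : ℕ}
    (hR : nv (x - y) = R) (hr : 20 * (r + 1) ≤ R) (hN : 4 * (M ^ N * (s + 1)) ≤ R) :
    (N : ℝ) * ((1 / 2 : ℝ) ^ 188 * (1 / 2 : ℝ) ^ 188 * (c ^ 3 / 384) *
      (((r : ℝ) + 1) * ((s : ℝ) + 1) / (R : ℝ) ^ 2) ^ al) ≤
      (μ.prod μ).real (EA (Bx x r) (Bx y s)) := by
  set D : ℕ → Set (Cfg × Cfg) := fun k => AA x r y R (M ^ k * (s + 1)) ×ˢ
        BB y s (M ^ k * (s + 1)) (M ^ (k + 1) * (s + 1)) with hD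
  have hpow : ∀ k, k < N → 4 * (M ^ (k + 1) * (s + 1)) ≤ R := by
    intro k hk
    refine le_trans ?_ hN
    have := Nat.pow_le_pow_right (show 0 < M by omega) (show k + 1 ≤ N by omega)
    nlinarith
  have hdisj : ∀ i j, i < j → Disjoint (D i) (D j) := by
    intro i j hij
    rw [Set.disjoint_left]
    rintro ⟨ω, ω'⟩ ⟨-, -, h2⟩ ⟨-, h3, -⟩
    apply h2
    obtain ⟨u, v, h4, h5, h6⟩ := h3
    refine ⟨u, v, h4, le_trans ?_ h5, h6⟩
    have := Nat.pow_le_pow_right (show 0 < M by omega) (show i + 1 ≤ j by omega)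
    nlinarith
  have hsub : (⋃ k ∈ Finset.range N, D k) ⊆ EA (Bx x r) (Bx y s) := by
    intro p hp
    obtain ⟨k, hk, hpk⟩ := Set.mem_iUnion₂.mp hp
    have hk' := Finset.mem_range.mp hk
    refine prod_sub hR ?_ ?_ hpk
    · have : 1 ≤ M ^ k := Nat.one_le_pow _ _ (by omega)
      nlinarith
    · have := hpow k hk'
      omega
  calc (N : ℝ) * ((1 / 2 : ℝ) ^ 188 * (1 / 2 : ℝ) ^ 188 * (c ^ 3 / 384) *
      (((r : ℝ) + 1) * ((s : ℝ) + 1) / (R : ℝ) ^ 2) ^ al)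
      = ∑ _k ∈ Finset.range N, ((1 / 2 : ℝ) ^ 188 * (1 / 2 : ℝ) ^ 188 * (c ^ 3 / 384) *
      (((r : ℝ) + 1) * ((s : ℝ) + 1) / (R : ℝ) ^ 2) ^ al) := by
        rw [Finset.sum_const, Finset.card_range, nsmul_eq_mul]
    _ ≤ ∑ k ∈ Finset.range N, (μ.prod μ).real (D k) :=
        Finset.sum_le_sum fun k hk => one_scale hc hlo hC hb hM hMC hR hr
          (hpow k (Finset.mem_range.mp hk))
    _ = (μ.prod μ).real (⋃ k ∈ Finset.range N, D k) := by
        symm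
        apply measureReal_biUnion_finset
        · intro i _ j _ hij
          rcases Nat.lt_or_gt_of_ne hij with h | h
          · exact hdisj i j h
          · exact (hdisj j i h).symm
        · intro k _
          exact (AA_meas _ _ _ _ _).prod (BB_meas _ _ _ _)
        · intro k _
          exact measure_ne_top _ _
    _ ≤ _ := measureReal_mono hsub

/-- **Lower bound.** -/
theorem meet_lower : ∃ c : ℝ, 0 < c ∧ ∀ (x y : ℤ × ℤ) (r s R : ℕ), nv (x - y) = R →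
    20 * (r + 1) ≤ R → 20 * (s + 1) ≤ R →
    c * (((r : ℝ) + 1) * ((s : ℝ) + 1) / (R : ℝ) ^ 2) ^ al *
        Real.log ((R : ℝ) / ((s : ℝ) + 1)) ≤
      (μ.prod μ).real (EA (Bx x r) (Bx y s)) := by
  obtain ⟨C, hC, hb⟩ := barm_up
  obtain ⟨c, hc, hlo⟩ := barm_lo
  obtain ⟨M, hM, hMC⟩ : ∃ M : ℕ, 2 ≤ M ∧ C * (1 / (M : ℝ)) ^ al ≤ c / 2 := by
    have h1 : Filter.Tendsto (fun n : ℕ => C * (1 / (n : ℝ)) ^ al) Filter.atTop
        (nhds (C * 0 ^ al)) := by
      apply Filter.Tendsto.const_mul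
      apply Filter.Tendsto.rpow_const
      · exact tendsto_one_div_atTop_nhds_zero_nat
      · right; norm_num
    rw [Real.zero_rpow (by norm_num), mul_zero] at h1
    have h2 := (h1.eventually (eventually_le_nhds (show (0 : ℝ) < c / 2 by positivity))).and
      (Filter.eventually_ge_atTop 2)
    obtain ⟨M, h3, h4⟩ := h2.exists
    exact ⟨M, h4, h3⟩
  have hM1 : (1 : ℝ) < M := by exact_mod_cast (by omega : 1 < M)
  have hlM : 0 < Real.log M := Real.log_pos hM1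
  set c4 : ℝ := (1 / 2 : ℝ) ^ 188 * (1 / 2 : ℝ) ^ 188 * (c ^ 3 / 384) with hc4
  set c5 : ℝ := (1 / 2 : ℝ) ^ 188 * (1 / 2 : ℝ) ^ 188 * (c ^ 2 / 64) with hc5
  have h40 : 0 < c4 := by positivity
  have h50 : 0 < c5 := by positivity
  refine ⟨min c4 c5 / (4 * Real.log M), by positivity, ?_⟩
  intro x y r s R hR hr hs
  have hR0 : (0 : ℝ) < R := by
    have : 0 < R := by omega
    exact_mod_cast this
  have hs1 : (0 : ℝ) < (s : ℝ) + 1 := by positivity
  set U : ℝ := (((r : ℝ) + 1) * ((s : ℝ) + 1) / (R : ℝ) ^ 2) ^ al with hU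
  have hU0 : 0 < U := Real.rpow_pos_of_pos (by positivity) _
  set q := R / (4 * (s + 1)) with hq
  have hq1 : 1 ≤ q := by
    rw [hq, Nat.one_le_div_iff (by omega)]
    omega
  set N := Nat.log M q with hN
  have n1 : M ^ N ≤ q := Nat.pow_log_le_self M (by omega)
  have n2 : q < M ^ (N + 1) := Nat.lt_pow_succ_log_self (by omega) q
  have n3 : 4 * (M ^ N * (s + 1)) ≤ R := by
    have h1 : q * (4 * (s + 1)) ≤ R := Nat.div_mul_le_self _ _
    nlinarith
  have n4 : R < M ^ (N + 1) * (4 * (s + 1)) := by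
    rw [hq, Nat.div_lt_iff_lt_mul (by omega)] at n2
    exact n2
  have e1 := all_scales hc hlo hC hb hM hMC (x := x) (y := y) (r := r) (s := s) hR hr n3
  have e2 := base_scale hc hlo (x := x) (y := y) (r := r) (s := s) hR hr hs
  have hlog : Real.log ((R : ℝ) / ((s : ℝ) + 1)) ≤ 2 * (((N : ℝ) + 1) * Real.log M) := by
    have h1 : (R : ℝ) / ((s : ℝ) + 1) ≤ (M : ℝ) ^ (N + 1) * 4 := by
      rw [div_le_iff₀ hs1]
      have : (R : ℝ) < (M : ℝ) ^ (N + 1) * (4 * ((s : ℝ) + 1)) := by exact_mod_cast n4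
      linarith
    have h2 : Real.log ((R : ℝ) / ((s : ℝ) + 1)) ≤ ((N : ℝ) + 1) * Real.log M + Real.log 4 := by
      calc Real.log ((R : ℝ) / ((s : ℝ) + 1)) ≤ Real.log ((M : ℝ) ^ (N + 1) * 4) :=
            Real.log_le_log (by positivity) h1
        _ = _ := by
            rw [Real.log_mul (by positivity) (by norm_num), Real.log_pow]
            push_cast
            ring
    have h3 : 2 * Real.log 4 ≤ Real.log ((R : ℝ) / ((s : ℝ) + 1)) := by
      have h5 : (20 : ℝ) ≤ (R : ℝ) / ((s : ℝ) + 1) := by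
        rw [le_div_iff₀ hs1]
        exact_mod_cast hs
      have h6 : (2 : ℝ) * Real.log 4 = Real.log 16 := by
        rw [show (16 : ℝ) = 4 ^ 2 by norm_num, Real.log_pow]
        norm_num
      rw [h6]
      exact Real.log_le_log (by norm_num) (by linarith)
    linarith
  set L := Real.log ((R : ℝ) / ((s : ℝ) + 1)) with hL
  have hmin : 0 < min c4 c5 := by positivity
  have f1 : (N : ℝ) * (min c4 c5 * U) ≤ (μ.prod μ).real (EA (Bx x r) (Bx y s)) := by
    refine le_trans ?_ e1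
    apply mul_le_mul_of_nonneg_left _ (Nat.cast_nonneg _)
    exact mul_le_mul_of_nonneg_right (min_le_left _ _) hU0.le
  have f2 : min c4 c5 * U ≤ (μ.prod μ).real (EA (Bx x r) (Bx y s)) := by
    refine le_trans ?_ e2
    exact mul_le_mul_of_nonneg_right (min_le_right _ _) hU0.le
  have hmU : 0 < min c4 c5 * U := by positivity
  calc min c4 c5 / (4 * Real.log M) * U * L
      = (min c4 c5 * U) * (L / (4 * Real.log M)) := by ring
    _ ≤ (min c4 c5 * U) * (((N : ℝ) + 1) / 2) := by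
        apply mul_le_mul_of_nonneg_left _ hmU.le
        rw [div_le_iff₀ (by positivity)]
        linarith
    _ = ((N : ℝ) * (min c4 c5 * U) + min c4 c5 * U) / 2 := by ring
    _ ≤ _ := by linarith

end Q292.CDep
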