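import Pool.Agent.Q292.CDep.Low2
import Pool.Agent.Q292.CDep.Exact

/-!
The dependence between the clusters of two boxes: conclusion.
-/

set_option autoImplicit false

namespace Q292.CDep

open Finset H974 Pool.Agent.H160R2.CV MeasureTheory
open Pool.Agent.H160R2.CV.Quad Pool.Agent.H389R2.CD H362P

theorem EA_empty (A B : Set (ℤ × ℤ)) :
    {ω : Cfg | ¬ Disjoint (clu A ω) (clu B ω) ∧ Disjoint A (clu B ω)} = ∅ := by
  ext ω
  simp only [Set.mem_empty_iff_false, iff_false]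
  rintro ⟨h1, h2⟩
  obtain ⟨z, ⟨u, hu, h3⟩, hz⟩ := Set.not_disjoint_iff.mp h1
  exact Set.disjoint_left.mp h2 hu (clu_reach hz h3.symm)

theorem EA_empty' (A B : Set (ℤ × ℤ)) :
    {ω : Cfg | ¬ Disjoint (clu A ω) (clu B ω) ∧ Disjoint (clu A ω) B} = ∅ := by
  ext ω
  simp only [Set.mem_empty_iff_false, iff_false]
  rintro ⟨h1, h2⟩
  obtain ⟨z, hz, ⟨u, hu, h3⟩⟩ := Set.not_disjoint_iff.mp h1
  exact Set.disjoint_left.mp h2 (clu_reach hz h3.symm) hu

/-- Both bounds for the dependence between the clusters of two boxes. -/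
theorem main : ∃ c C : ℝ, 0 < c ∧ 0 < C ∧ ∀ (x y : ℤ × ℤ) (r s R : ℕ), nv (x - y) = R →
    20 * (r + 1) ≤ R → 20 * (s + 1) ≤ R →
    (∀ S : Set ((Set (ℤ × ℤ) × Set sqLattice.edgeSet) × (Set (ℤ × ℤ) × Set sqLattice.edgeSet)),
      |μ.real {ω | (cgr (Bx x r) ω, cgr (Bx y s) ω) ∈ S} -
        (μ.prod μ).real {p | (cgr (Bx x r) p.1, cgr (Bx y s) p.2) ∈ S}| ≤
        C * (((r : ℝ) + 1) * ((s : ℝ) + 1) / (R : ℝ) ^ 2) ^ al *
          Real.log ((R : ℝ) ^ 2 / (((r : ℝ) + 1) * ((s : ℝ) + 1)))) ∧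
    (∃ S : Set (Set (ℤ × ℤ) × Set (ℤ × ℤ)),
      MeasurableSet {ω | (clu (Bx x r) ω, clu (Bx y s) ω) ∈ S} ∧
      MeasurableSet {p : Cfg × Cfg | (clu (Bx x r) p.1, clu (Bx y s) p.2) ∈ S} ∧
      c * (((r : ℝ) + 1) * ((s : ℝ) + 1) / (R : ℝ) ^ 2) ^ al *
          Real.log ((R : ℝ) ^ 2 / (((r : ℝ) + 1) * ((s : ℝ) + 1))) ≤
      |μ.real {ω | (clu (Bx x r) ω, clu (Bx y s) ω) ∈ S} -
        (μ.prod μ).real {p | (clu (Bx x r) p.1, clu (Bx y s) p.2) ∈ S}|) := by
  obtain ⟨C, hC, hup⟩ := meet_upper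
  obtain ⟨c, hc, hlo⟩ := meet_lower
  refine ⟨c / 2, C, by positivity, hC, ?_⟩
  intro x y r s R hR hr hs
  have hR0 : (0 : ℝ) < R := by
    have : 0 < R := by omega
    exact_mod_cast this
  have hr1 : (0 : ℝ) < (r : ℝ) + 1 := by positivity
  have hs1 : (0 : ℝ) < (s : ℝ) + 1 := by positivity
  constructor
  · intro S
    exact (tv_upper (clu_finite x r) (clu_finite y s) S).trans (hup x y r s R hR hr hs)
  · set U : ℝ := (((r : ℝ) + 1) * ((s : ℝ) + 1) / (R : ℝ) ^ 2) ^ al with hU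
    have hU0 : 0 < U := Real.rpow_pos_of_pos (by positivity) _
    have hlg : Real.log ((R : ℝ) ^ 2 / (((r : ℝ) + 1) * ((s : ℝ) + 1))) =
        Real.log ((R : ℝ) / ((s : ℝ) + 1)) + Real.log ((R : ℝ) / ((r : ℝ) + 1)) := by
      rw [← Real.log_mul (by positivity) (by positivity)]
      congr 1
      field_simp
    rw [hlg]
    have g1 := hlo x y r s R hR hr hs
    have hR' : nv (y - x) = R := by rw [w_nv_comm]; exact hR
    have g2 := hlo y x s r R hR' hs hr
    have e0 : ((s : ℝ) + 1) * ((r : ℝ) + 1) / (R : ℝ) ^ 2 =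
        ((r : ℝ) + 1) * ((s : ℝ) + 1) / (R : ℝ) ^ 2 := by ring
    rw [e0, ← hU] at g2
    rw [← hU] at g1
    set a := Real.log ((R : ℝ) / ((s : ℝ) + 1)) with ha
    set b := Real.log ((R : ℝ) / ((r : ℝ) + 1)) with hb
    have hcU : 0 < c * U := by positivity
    rcases le_total b a with hab | hab
    · refine ⟨{q | ¬ Disjoint q.1 q.2 ∧ Disjoint (Bx x r) q.2}, ?_, EA_meas _ _, ?_⟩
      · have := EA_empty (Bx x r) (Bx y s)
        show MeasurableSet {ω : Cfg | ¬ Disjoint (clu (Bx x r) ω) (clu (Bx y s) ω) ∧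
          Disjoint (Bx x r) (clu (Bx y s) ω)}
        rw [this]
        exact MeasurableSet.empty
      · have e1 : μ.real {ω | (clu (Bx x r) ω, clu (Bx y s) ω) ∈
            {q : Set (ℤ × ℤ) × Set (ℤ × ℤ) | ¬ Disjoint q.1 q.2 ∧ Disjoint (Bx x r) q.2}} = 0 := by
          show μ.real {ω : Cfg | ¬ Disjoint (clu (Bx x r) ω) (clu (Bx y s) ω) ∧
            Disjoint (Bx x r) (clu (Bx y s) ω)} = 0
          rw [EA_empty, measureReal_empty]
        rw [e1, zero_sub, abs_neg, abs_of_nonneg measureReal_nonneg]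
        refine le_trans ?_ g1
        nlinarith
    · refine ⟨{q | ¬ Disjoint q.1 q.2 ∧ Disjoint q.1 (Bx y s)}, ?_, ?_, ?_⟩
      · have := EA_empty' (Bx x r) (Bx y s)
        show MeasurableSet {ω : Cfg | ¬ Disjoint (clu (Bx x r) ω) (clu (Bx y s) ω) ∧
          Disjoint (clu (Bx x r) ω) (Bx y s)}
        rw [this]
        exact MeasurableSet.empty
      · have h1 := measurable_swap (EA_meas (Bx y s) (Bx x r))
        refine (congrArg MeasurableSet ?_).mpr h1
        ext p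
        show (¬ Disjoint (clu (Bx x r) p.1) (clu (Bx y s) p.2) ∧
          Disjoint (clu (Bx x r) p.1) (Bx y s)) ↔
          (¬ Disjoint (clu (Bx y s) p.2) (clu (Bx x r) p.1) ∧
          Disjoint (Bx y s) (clu (Bx x r) p.1))
        rw [disjoint_comm, disjoint_comm (a := clu (Bx x r) p.1)]
      · have e1 : μ.real {ω | (clu (Bx x r) ω, clu (Bx y s) ω) ∈
            {q : Set (ℤ × ℤ) × Set (ℤ × ℤ) | ¬ Disjoint q.1 q.2 ∧ Disjoint q.1 (Bx y s)}} = 0 := by
          show μ.real {ω : Cfg | ¬ Disjoint (clu (Bx x r) ω) (clu (Bx y s) ω) ∧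
            Disjoint (clu (Bx x r) ω) (Bx y s)} = 0
          rw [EA_empty', measureReal_empty]
        rw [e1, zero_sub, abs_neg, abs_of_nonneg measureReal_nonneg]
        rw [← swap_real] at g2
        have e2 : {p : Cfg × Cfg | (p.2, p.1) ∈ EA (Bx y s) (Bx x r)} =
            {p : Cfg × Cfg | (clu (Bx x r) p.1, clu (Bx y s) p.2) ∈
            {q : Set (ℤ × ℤ) × Set (ℤ × ℤ) | ¬ Disjoint q.1 q.2 ∧ Disjoint q.1 (Bx y s)}} := by
          ext p
          show (¬ Disjoint (clu (Bx y s) p.2) (clu (Bx x r) p.1) ∧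
            Disjoint (Bx y s) (clu (Bx x r) p.1)) ↔
            (¬ Disjoint (clu (Bx x r) p.1) (clu (Bx y s) p.2) ∧
            Disjoint (clu (Bx x r) p.1) (Bx y s))
          rw [disjoint_comm, disjoint_comm (a := Bx y s)]
        rw [e2] at g2
        refine le_trans ?_ g2
        nlinarith

theorem Bx_zero (x : ℤ × ℤ) : Bx x 0 = {x} := by
  ext u
  constructor
  · intro h
    have h' : nv (u - x) ≤ 0 := h
    have h1 := nv_eq_zero (Nat.le_zero.mp h')
    exact sub_eq_zero.mp h1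
  · intro h
    rw [Set.mem_singleton_iff] at h
    rw [h]
    show nv (x - x) ≤ 0
    rw [nv_self]

theorem single_finite (x : ℤ × ℤ) : ∀ᵐ ω ∂μ, (clu {x} ω).Finite := by
  have := clu_finite x 0
  rwa [Bx_zero] at this

end Q292.CDep
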