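import Pool.Agent.Q292.CDep.Base

/-!
A circuit of one configuration meets the crossings of the annulus of another configuration.
-/

set_option autoImplicit false

namespace Q292.CDep

open Finset H974 Pool.Agent.H160R2.CV MeasureTheory
open Pool.Agent.H160R2.CV.Quad Pool.Agent.H389R2.CD H362P

/-- A horizontal path of `F` and a vertical path of `G` have a common vertex. -/
theorem cross_meet2 {F G : Set Edg} {A B C D a b c d : ℤ} (hA : A ≤ a) (hab : a < b) (hB : b ≤ B)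
    (hC : C ≤ c) (hcd : c < d) (hD : d ≤ D) {u v u' v' : Vtx}
    (h1 : Reach (F ∩ ↑(RE A B c d)) u v) (hu : u.1 ≤ a) (hv : b ≤ v.1)
    (h2 : Reach (G ∩ ↑(RE a b C D)) u' v') (hu' : u'.2 ≤ c) (hv' : d ≤ v'.2) :
    ∃ w, Reach F u w ∧ Reach G u' w := by
  by_contra hcon
  push Not at hcon
  set H : Set Edg := {e | e ∈ F ∧ Reach F u (src e)} ∪ {e | e ∈ G ∧ Reach G u' (src e)} with hH
  have stepF : ∀ (K : Set Edg) (w : Vtx), Reach (F ∩ K) u w →
      Reach F u w ∧ Reach (H ∩ K) u w := by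
    intro K w hw
    induction hw with
    | refl => exact ⟨Reach.refl _ _, Reach.refl _ _⟩
    | @tail w w' _ hs ih =>
      obtain ⟨i1, i2⟩ := ih
      obtain ⟨e, ⟨he, heK⟩, hc⟩ := hs
      have hw' : Reach F u w' := i1.trans (Adj.reach ⟨e, he, hc⟩)
      refine ⟨hw', i2.trans (Adj.reach ⟨e, ⟨Or.inl ⟨he, ?_⟩, heK⟩, hc⟩)⟩
      rcases hc with ⟨h3, -⟩ | ⟨h3, -⟩
      · rw [h3]; exact i1
      · rw [h3]; exact hw'
  have stepG : ∀ (K : Set Edg) (w : Vtx), Reach (G ∩ K) u' w →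
      Reach G u' w ∧ Reach (H ∩ K) u' w := by
    intro K w hw
    induction hw with
    | refl => exact ⟨Reach.refl _ _, Reach.refl _ _⟩
    | @tail w w' _ hs ih =>
      obtain ⟨i1, i2⟩ := ih
      obtain ⟨e, ⟨he, heK⟩, hc⟩ := hs
      have hw' : Reach G u' w' := i1.trans (Adj.reach ⟨e, he, hc⟩)
      refine ⟨hw', i2.trans (Adj.reach ⟨e, ⟨Or.inr ⟨he, ?_⟩, heK⟩, hc⟩)⟩
      rcases hc with ⟨h3, -⟩ | ⟨h3, -⟩
      · rw [h3]; exact i1
      · rw [h3]; exact hw'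
  have m := cross_meet (F := H) hA hab hB hC hcd hD (stepF _ _ h1).2 hu hv (stepG _ _ h2).2 hu' hv'
  have key : ∀ w, Reach (H ∩ ↑(RE A B C D)) u w → Reach F u w := by
    intro w hw
    induction hw with
    | refl => exact Reach.refl _ _
    | @tail w w' _ hs ih =>
      obtain ⟨e, ⟨he, -⟩, hc⟩ := hs
      rcases he with ⟨he, -⟩ | ⟨he, her⟩
      · exact ih.trans (Adj.reach ⟨e, he, hc⟩)
      · exfalso
        have het : Reach G u' (tgt e) := her.trans (Adj.reach ⟨e, he, Or.inl ⟨rfl, rfl⟩⟩)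
        rcases hc with ⟨h3, -⟩ | ⟨-, h3⟩
        · rw [h3] at her
          exact hcon w ih her
        · rw [h3] at het
          exact hcon w ih het
  exact hcon u' (key u' m) (Reach.refl _ _)

theorem circ_meet2 {F : Finset Edg} {R1 R2 : ℤ} (h1 : 0 ≤ R1) (h2 : R1 < R2)
    (h : Circ R1 R2 F) : ∃ z : Vtx, ∀ (G : Set Edg) (u v : Vtx), inR (-R1) R1 (-R1) R1 u →
      (v.1 = -R2 ∨ v.1 = R2 ∨ v.2 = -R2 ∨ v.2 = R2) →
      Reach (G ∩ ↑(RE (-R2) R2 (-R2) R2)) u v → ∃ w, Reach G u w ∧ Reach (↑F) z w := by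
  obtain ⟨⟨⟨t, t', ht, ht', hT⟩, ⟨b, b', hb, hb', hB⟩⟩, ⟨r, r', hr, hr', hR⟩,
    ⟨l, l', hl, hl', hL⟩⟩ := h
  have hT' := hT.mono (Set.inter_subset_inter_right (↑F)
    (by exact_mod_cast LRE_subset_RE : (↑(LRE (-R2) R2 R1 R2) : Set Edg) ⊆ _))
  have hB' := hB.mono (Set.inter_subset_inter_right (↑F)
    (by exact_mod_cast LRE_subset_RE : (↑(LRE (-R2) R2 (-R2) (-R1)) : Set Edg) ⊆ _))
  have hR' := hR.mono (Set.inter_subset_inter_right (↑F)
    (by exact_mod_cast TBE_subset_RE : (↑(TBE R1 R2 (-R2) R2) : Set Edg) ⊆ _))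
  have hL' := hL.mono (Set.inter_subset_inter_right (↑F)
    (by exact_mod_cast TBE_subset_RE : (↑(TBE (-R2) (-R1) (-R2) R2) : Set Edg) ⊆ _))
  have mTR : Reach (↑F ∩ ↑(RE (-R2) R2 (-R2) R2)) (-R2, t) (r, -R2) :=
    cross_meet (by omega) h2 le_rfl (by omega) h2 le_rfl hT' (by simp only; omega) le_rfl hR'
      (by simp only; omega) le_rfl
  have mBR : Reach (↑F ∩ ↑(RE (-R2) R2 (-R2) R2)) (-R2, b) (r, -R2) :=
    cross_meet (by omega) h2 le_rfl le_rfl (by omega) (by omega) hB' (by simp only; omega) le_rfl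
      hR' le_rfl (by simp only; omega)
  have mTL : Reach (↑F ∩ ↑(RE (-R2) R2 (-R2) R2)) (-R2, t) (l, -R2) :=
    cross_meet le_rfl (by omega) (by omega) (by omega) h2 le_rfl hT' le_rfl (by simp only; omega)
      hL' (by simp only; omega) le_rfl
  have nTR := mTR.mono Set.inter_subset_left
  have nBR := mBR.mono Set.inter_subset_left
  have nTL := mTL.mono Set.inter_subset_left
  refine ⟨(r, -R2), ?_⟩
  intro G u v hu hv hP
  have hPG := hP.mono Set.inter_subset_left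
  unfold inR at hu
  rcases hv with hv | hv | hv | hv
  · obtain ⟨w, w1, w2⟩ := cross_meet2 (F := G) (G := ↑F) (A := -R2) (B := R2) (C := -R2) (D := R2)
      le_rfl (by omega) (by omega) le_rfl (by omega) le_rfl hP.symm hv.le
      (show -R1 ≤ u.1 by omega) hL' le_rfl le_rfl
    exact ⟨w, hPG.trans w1, (nTR.symm.trans nTL).trans w2⟩
  · obtain ⟨w, w1, w2⟩ := cross_meet2 (F := G) (G := ↑F) (A := -R2) (B := R2) (C := -R2) (D := R2)
      (by omega) h2 le_rfl le_rfl (by omega) le_rfl hP (by omega) hv.ge hR' le_rfl le_rfl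
    exact ⟨w, w1, w2⟩
  · obtain ⟨w, w1, w2⟩ := cross_meet2 (F := ↑F) (G := G) (A := -R2) (B := R2) (C := -R2) (D := R2)
      le_rfl (by omega) le_rfl le_rfl (by omega) (by omega) hB' le_rfl le_rfl hP.symm
        hv.le (show -R1 ≤ u.2 by omega)
    exact ⟨w, hPG.trans w2, nBR.symm.trans w1⟩
  · obtain ⟨w, w1, w2⟩ := cross_meet2 (F := ↑F) (G := G) (A := -R2) (B := R2) (C := -R2) (D := R2)
      le_rfl (by omega) le_rfl (by omega) h2 le_rfl hT' le_rfl le_rfl hP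
        (by omega) hv.ge
    exact ⟨w, w2, nTR.symm.trans w1⟩

theorem CA_meet2 {c : Vtx} {R1 R2 : ℕ} (h12 : R1 < R2) {F : Finset Edg} (h : CA c R1 R2 F) :
    ∃ z : Vtx, ∀ (G : Set Edg) (u v : Vtx), nv (u - c) ≤ R1 → R2 ≤ nv (v - c) → Reach G u v →
      ∃ w, Reach G u w ∧ Reach (↑F) z w := by
  obtain ⟨z, hz⟩ := circ_meet2 (R1 := R1) (R2 := R2) (by positivity) (by exact_mod_cast h12) h
  refine ⟨z + c, fun G u v hu hv hr => ?_⟩
  have h1 := (trl (-c.1) (-c.2)).reach hr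
  rw [trl_neg, trl_neg] at h1
  have hu1 := nv_in hu
  have h12' : (R1 : ℤ) < R2 := by exact_mod_cast h12
  obtain ⟨w, k1, k2, k3⟩ := first_exit (a := -(R2 : ℤ)) (b := R2) (c := -(R2 : ℤ)) (d := R2)
    (by unfold inR at hu1 ⊢; omega) h1 (nv_cases' hv)
  obtain ⟨q, q1, q2⟩ := hz _ (u - c) w hu1 k2 k3
  have h3 : ∀ t : Vtx, (trl (-c.1) (-c.2)).ψ (t + c) = t := by
    intro t; rw [trl_neg]; exact add_sub_cancel_right t c
  refine ⟨q + c, ?_, ?_⟩
  · rw [← trl_neg, ← h3 q, LSym.reach_iff] at q1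
    exact q1
  · rw [LSym.coe_mp, ← h3 q, ← h3 z, LSym.reach_iff] at q2
    exact q2

end Q292.CDep
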