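import Pool.Agent.Q292.CDep.Main
import Pool.Agent.H362P.Fin

/-!
The clusters of two vertices: both bounds at all distances.
-/

set_option autoImplicit false

namespace Q292.CDep

open Finset H974 Pool.Agent.H160R2.CV MeasureTheory
open Pool.Agent.H160R2.CV.Quad Pool.Agent.H389R2.CD H362P

/-- the event of the exact formula -/
def ED (x y : ℤ × ℤ) : Set (Cfg × Cfg) :=
  {p | ¬ Disjoint (clu {x} p.1) (clu {y} p.2) ∧ clu {x} p.1 ≠ clu {y} p.2}

theorem toE_cases {a b : ℤ} (e : sqLattice.edgeSet) (he : (a, b) ∈ (e : Sym2 (ℤ × ℤ))) :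
    e = toE (a, b, true) ∨ e = toE (a - 1, b, true) ∨ e = toE (a, b, false) ∨
      e = toE (a, b - 1, false) := by
  obtain ⟨e, hE⟩ := e
  induction e using Sym2.ind with
  | _ p q =>
    obtain ⟨⟨x, y, d⟩, h2⟩ := adj_edge (u := p) (v := q) hE
    have h3 : (⟨s(p, q), hE⟩ : sqLattice.edgeSet) = toE (x, y, d) := by
      apply Subtype.ext
      show s(p, q) = s(src (x, y, d), tgt (x, y, d))
      rcases h2 with ⟨h2, h4⟩ | ⟨h2, h4⟩
      · rw [h2, h4]
      · rw [h2, h4, Sym2.eq_swap]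
    have h5 : (a, b) = src (x, y, d) ∨ (a, b) = tgt (x, y, d) := by
      have h6 : (a, b) ∈ s(p, q) := he
      rw [Sym2.mem_iff] at h6
      rcases h2 with ⟨h2, h4⟩ | ⟨h2, h4⟩
      · rw [h2, h4]; exact h6
      · rw [h2, h4]; exact h6.symm
    rw [h3]
    cases d
    · simp only [src_mk, tgt_false, Prod.mk.injEq] at h5
      rcases h5 with ⟨h5, h6⟩ | ⟨h5, h6⟩
      · right; right; left; rw [h5, h6]
      · right; right; right
        rw [h5, h6]
        simp
    · simp only [src_mk, tgt_true, Prod.mk.injEq] at h5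
      rcases h5 with ⟨h5, h6⟩ | ⟨h5, h6⟩
      · left; rw [h5, h6]
      · right; left
        rw [h5, h6]
        simp

/-- The cluster of a vertex is a single vertex with probability at least `1 / 16`. -/
theorem iso_ge (y : ℤ × ℤ) : (1 / 16 : ℝ) ≤ μ.real {ω : Cfg | clu {y} ω = {y}} := by
  classical
  obtain ⟨a, b⟩ := y
  set T : Finset sqLattice.edgeSet :=
    {toE (a, b, true), toE (a - 1, b, true), toE (a, b, false), toE (a, b - 1, false)} with hT
  have hcard : T.card ≤ 4 := Finset.card_le_four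
  have hsub : cyl T (fun _ => false) ⊆ {ω : Cfg | clu {(a, b)} ω = {(a, b)}} := by
    intro ω hω
    apply Set.Subset.antisymm
    · refine clu_sub_of (le_refl _) ?_
      intro u v hu hadj
      rw [Set.mem_singleton_iff] at hu
      subst hu
      obtain ⟨h, ho⟩ := (og_adj ω _ _).mp hadj
      exfalso
      have h1 := hω ⟨s((a, b), v), h⟩ (by
        rw [hT]
        simp only [Finset.mem_insert, Finset.mem_singleton]
        exact toE_cases _ (Sym2.mem_mk_left _ _))
      rw [h1] at ho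
      exact absurd ho (by simp)
    · exact sub_clu _ _
  refine le_trans ?_ (measureReal_mono hsub)
  rw [measureReal_def, cyl_law, ENNReal.toReal_pow, ENNReal.toReal_inv]
  have h2 : ((2 : ENNReal).toReal)⁻¹ = 1 / 2 := by norm_num
  rw [h2]
  calc (1 / 16 : ℝ) = (1 / 2) ^ 4 := by norm_num
    _ ≤ _ := pow_le_pow_of_le_one (by norm_num) (by norm_num) hcard

theorem near_lower : ∃ c : ℝ, 0 < c ∧ ∀ x y : ℤ × ℤ, x ≠ y →
    c * (sd x y : ℝ) ^ (-(5 / 24 : ℝ)) ≤ (μ.prod μ).real (ED x y) := by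
  obtain ⟨c, C, hc, hC, h⟩ := two_point Pool.Agent.H160R2.SA.arSharp
  refine ⟨c / 16, by positivity, fun x y hxy => ?_⟩
  have h1 := (h x y hxy).1
  have hsub : {ω : Cfg | Cn {x, y} (opn ω)} ×ˢ {ω : Cfg | clu {y} ω = {y}} ⊆ ED x y := by
    rintro ⟨ω, ω'⟩ ⟨h2, h3⟩
    have h3' : clu {y} ω' = {y} := h3
    have h4 : Reach (opn ω) x y := h2 x (by simp) y (by simp)
    have h5 : y ∈ clu {x} ω := ⟨x, rfl, (open_reach ω x y).mpr h4⟩
    show ¬ Disjoint (clu {x} ω) (clu {y} ω') ∧ clu {x} ω ≠ clu {y} ω'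
    rw [h3']
    refine ⟨Set.not_disjoint_iff.mpr ⟨y, h5, rfl⟩, fun hcon => ?_⟩
    have h6 : x ∈ clu {x} ω := sub_clu _ _ rfl
    rw [hcon] at h6
    exact hxy h6
  refine le_trans ?_ (measureReal_mono hsub)
  rw [measureReal_prod_prod]
  have h7 : c * (sd x y : ℝ) ^ (-(5 / 24 : ℝ)) ≤ μ.real {ω : Cfg | Cn {x, y} (opn ω)} := h1
  calc c / 16 * (sd x y : ℝ) ^ (-(5 / 24 : ℝ))
      = (c * (sd x y : ℝ) ^ (-(5 / 24 : ℝ))) * (1 / 16) := by ring
    _ ≤ _ := mul_le_mul h7 (iso_ge y) (by norm_num) measureReal_nonneg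

theorem pow_two_pt {R : ℕ} (hR : 1 ≤ R) :
    ((((0 : ℕ) : ℝ) + 1) * (((0 : ℕ) : ℝ) + 1) / (R : ℝ) ^ 2) ^ al =
      (R : ℝ) ^ (-(5 / 24 : ℝ)) := by
  have hR0 : (0 : ℝ) < R := by exact_mod_cast hR
  have e1 : (((0 : ℕ) : ℝ) + 1) * (((0 : ℕ) : ℝ) + 1) / (R : ℝ) ^ 2 = (R : ℝ) ^ (-2 : ℝ) := by
    rw [Real.rpow_neg hR0.le, Real.rpow_two]
    simp
  rw [e1, ← Real.rpow_mul hR0.le]
  congr 1
  norm_num

/-- **Two vertices at any distance.** -/
theorem two_vertices : ∃ c C : ℝ, 0 < c ∧ 0 < C ∧ ∀ x y : ℤ × ℤ, x ≠ y →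
    c * (sd x y : ℝ) ^ (-(5 / 24 : ℝ)) * Real.log ((sd x y : ℝ) + 1) ≤
      (μ.prod μ).real (ED x y) ∧
    (μ.prod μ).real (ED x y) ≤
      C * (sd x y : ℝ) ^ (-(5 / 24 : ℝ)) * Real.log ((sd x y : ℝ) + 1) := by
  obtain ⟨c, C, hc, hC, hm⟩ := main
  obtain ⟨c', hc', hn⟩ := near_lower
  refine ⟨min c (c' / 4), 2 * C + 40, by positivity, by positivity, fun x y hxy => ?_⟩
  set R := sd x y with hR
  have hR1 : 1 ≤ R := sd_pos hxy
  have hR1' : (1 : ℝ) ≤ R := by exact_mod_cast hR1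
  have hR0 : (0 : ℝ) < R := by linarith
  set U : ℝ := (R : ℝ) ^ (-(5 / 24 : ℝ)) with hU
  have hU0 : 0 < U := Real.rpow_pos_of_pos hR0 _
  have hl0 : 0 < Real.log ((R : ℝ) + 1) := Real.log_pos (by linarith)
  have hmin : min c (c' / 4) ≤ c := min_le_left _ _
  have hmin' : min c (c' / 4) ≤ c' / 4 := min_le_right _ _
  rcases Nat.lt_or_ge R 20 with hlt | hge
  · have hRle : (R : ℝ) ≤ 19 := by exact_mod_cast (by omega : R ≤ 19)
    have hl : Real.log ((R : ℝ) + 1) ≤ 4 := by
      have h1 : Real.log ((R : ℝ) + 1) ≤ Real.log (2 ^ 5) :=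
        Real.log_le_log (by linarith) (by norm_num; linarith)
      rw [Real.log_pow] at h1
      have := Real.log_two_lt_d9
      push_cast at h1
      linarith
    constructor
    · have h1 := hn x y hxy
      rw [← hR, ← hU] at h1
      refine le_trans ?_ h1
      have h2 : min c (c' / 4) * U ≤ c' / 4 * U := mul_le_mul_of_nonneg_right hmin' hU0.le
      have h3 : 0 < c' / 4 * U := by positivity
      calc min c (c' / 4) * U * Real.log ((R : ℝ) + 1)
          ≤ c' / 4 * U * Real.log ((R : ℝ) + 1) := mul_le_mul_of_nonneg_right h2 hl0.le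
        _ ≤ c' / 4 * U * 4 := mul_le_mul_of_nonneg_left hl h3.le
        _ = c' * U := by ring
    · have h1 : (μ.prod μ).real (ED x y) ≤ 1 := measureReal_le_one
      refine h1.trans ?_
      have h2 : (1 / 20 : ℝ) ≤ U := by
        rw [hU, Real.rpow_neg hR0.le, one_div]
        apply inv_anti₀ (by positivity)
        calc (R : ℝ) ^ (5 / 24 : ℝ) ≤ (R : ℝ) ^ (1 : ℝ) :=
              Real.rpow_le_rpow_of_exponent_le hR1' (by norm_num)
          _ = R := Real.rpow_one _
          _ ≤ 20 := by linarith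
      have h3 : (1 / 2 : ℝ) ≤ Real.log ((R : ℝ) + 1) := by
        have h4 : Real.log 2 ≤ Real.log ((R : ℝ) + 1) :=
          Real.log_le_log (by norm_num) (by linarith)
        have := Real.log_two_gt_d9
        linarith
      have h5 : (1 / 20 : ℝ) * (1 / 2) ≤ U * Real.log ((R : ℝ) + 1) :=
        mul_le_mul h2 h3 (by norm_num) hU0.le
      nlinarith
  · have hRge : (20 : ℝ) ≤ R := by exact_mod_cast hge
    have hRn : nv (x - y) = R := rfl
    obtain ⟨m1, m2⟩ := hm x y 0 0 R hRn (by omega) (by omega)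
    rw [pow_two_pt hR1, ← hU] at m1 m2
    simp only [Bx_zero] at m1 m2
    have elog : Real.log ((R : ℝ) ^ 2 / ((((0 : ℕ) : ℝ) + 1) * (((0 : ℕ) : ℝ) + 1))) =
        2 * Real.log R := by
      simp only [Nat.cast_zero, zero_add, mul_one, div_one]
      rw [Real.log_pow]
      norm_num
    rw [elog] at m1 m2
    have hl1 : Real.log ((R : ℝ) + 1) ≤ 2 * Real.log R := by
      rw [show (2 : ℝ) * Real.log R = Real.log ((R : ℝ) ^ 2) by rw [Real.log_pow]; norm_num]
      exact Real.log_le_log (by linarith) (by nlinarith)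
    have hl2 : Real.log R ≤ Real.log ((R : ℝ) + 1) :=
      Real.log_le_log (by linarith) (by linarith)
    constructor
    · obtain ⟨S, -, -, hS⟩ := m2
      have h1 := exact_le (single_finite x) (single_finite y) S
      have h2 : c * U * (2 * Real.log R) ≤ (μ.prod μ).real (ED x y) := hS.trans h1
      refine le_trans ?_ h2
      calc min c (c' / 4) * U * Real.log ((R : ℝ) + 1)
          ≤ c * U * Real.log ((R : ℝ) + 1) := by
            apply mul_le_mul_of_nonneg_right _ hl0.le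
            exact mul_le_mul_of_nonneg_right hmin hU0.le
        _ ≤ c * U * (2 * Real.log R) := mul_le_mul_of_nonneg_left hl1 (by positivity)
    · have h1 := m1 {q | ¬ Disjoint q.1.1 q.2.1 ∧ q.1.1 ≠ q.2.1}
      have h2 := exact_eq x y
      have h3 : (μ.prod μ).real (ED x y) ≤ C * U * (2 * Real.log R) := by
        refine le_trans (le_of_eq ?_) h1
        exact h2.symm
      refine h3.trans ?_
      have h4 : 0 < C * U := by positivity
      have h5 : 0 < U * Real.log ((R : ℝ) + 1) := by positivity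
      calc C * U * (2 * Real.log R) ≤ C * U * (2 * Real.log ((R : ℝ) + 1)) := by
            apply mul_le_mul_of_nonneg_left _ h4.le
            linarith
        _ ≤ _ := by nlinarith

end Q292.CDep
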